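import Mathlib

/-!
# Tables of pairs `(a, b)` such that `(k, a, b)` is realised with at most `L` elements
-/

namespace Pool.Agent.Helper57.M4

/-- `k = 8`, `L = 9` -/
def T8a : List (ℕ × ℕ) :=
  [(0, 0), (5, 0), (6, 0), (8, 0), (8, 1), (9, 0), (9, 1), (9, 2), (10, 0), (10, 2), (10, 3),
   (11, 0), (11, 2), (11, 3), (11, 4), (12, 0), (12, 3), (12, 4), (13, 0), (13, 4), (13, 5),
   (13, 6), (14, 0), (14, 3), (14, 4), (14, 5), (14, 6), (14, 7), (14, 8), (15, 0), (15, 3),
   (15, 4), (15, 5), (15, 6), (15, 7), (15, 8), (15, 10), (16, 5), (16, 6), (16, 7), (16, 8),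
   (16, 9), (16, 10), (16, 11), (16, 12), (17, 4), (17, 6), (17, 7), (17, 8), (17, 9), (17, 10),
   (17, 11), (17, 12), (17, 13), (17, 14), (18, 8), (18, 9), (18, 10), (18, 11), (18, 12),
   (18, 13), (18, 14), (18, 15), (19, 12), (19, 13), (19, 14), (19, 15), (19, 16), (19, 19),
   (20, 16), (20, 17), (21, 20), (21, 21)]

/-- `k = 8`, `L = 16` -/
def T8 : List (ℕ × ℕ) :=
  [(0, 0), (5, 0), (6, 0), (7, 0), (8, 0), (8, 1), (9, 0), (9, 1), (9, 2), (10, 0), (10, 2),
   (10, 3), (11, 0), (11, 2), (11, 3), (11, 4), (12, 0), (12, 3), (12, 4), (12, 5), (13, 0),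
   (13, 4), (13, 5), (13, 6), (14, 0), (14, 3), (14, 4), (14, 5), (14, 6), (14, 7), (14, 8),
   (15, 0), (15, 3), (15, 4), (15, 5), (15, 6), (15, 7), (15, 8), (15, 10), (16, 0), (16, 5),
   (16, 6), (16, 7), (16, 8), (16, 9), (16, 10), (16, 11), (16, 12), (17, 4), (17, 6), (17, 7),
   (17, 8), (17, 9), (17, 10), (17, 11), (17, 12), (17, 13), (17, 14), (18, 8), (18, 9), (18, 10),
   (18, 11), (18, 12), (18, 13), (18, 14), (18, 15), (18, 16), (19, 12), (19, 13), (19, 14),
   (19, 15), (19, 16), (19, 17), (19, 18), (19, 19), (20, 15), (20, 16), (20, 17), (20, 18),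
   (20, 19), (20, 20), (20, 21), (20, 22), (21, 18), (21, 19), (21, 20), (21, 21), (21, 22),
   (21, 24), (21, 25), (22, 23), (22, 24), (22, 25), (22, 26), (22, 27), (22, 28), (23, 28),
   (23, 29), (23, 30), (23, 31), (23, 32), (24, 32), (24, 33), (24, 34), (24, 35), (24, 36),
   (25, 38), (25, 39), (25, 40), (26, 44), (26, 45), (27, 50), (28, 56)]

/-- `k = 10`, `L = 12` -/
def T10 : List (ℕ × ℕ) :=
  [(0, 0), (7, 0), (8, 0), (9, 0), (10, 0), (12, 0), (12, 2), (13, 0), (13, 2), (13, 4), (14, 0),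
   (14, 3), (14, 5), (15, 0), (15, 4), (15, 6), (16, 0), (16, 3), (16, 4), (16, 5), (16, 6),
   (16, 7), (17, 5), (17, 6), (17, 8), (18, 0), (18, 4), (18, 5), (18, 6), (18, 7), (18, 8),
   (18, 9), (18, 10), (19, 0), (19, 4), (19, 6), (19, 7), (19, 8), (19, 9), (19, 10), (19, 12),
   (20, 0), (20, 6), (20, 7), (20, 8), (20, 9), (20, 10), (20, 11), (20, 13), (20, 14), (21, 0),
   (21, 6), (21, 7), (21, 8), (21, 9), (21, 10), (21, 11), (21, 12), (21, 13), (21, 14), (21, 15),
   (21, 16), (22, 0), (22, 5), (22, 7), (22, 8), (22, 9), (22, 10), (22, 11), (22, 12), (22, 13),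
   (22, 16), (22, 17), (22, 18), (23, 0), (23, 5), (23, 8), (23, 9), (23, 10), (23, 11), (23, 12),
   (23, 13), (23, 14), (23, 16), (23, 17), (23, 18), (23, 20), (24, 0), (24, 8), (24, 9),
   (24, 10), (24, 11), (24, 12), (24, 15), (24, 16), (24, 17), (24, 18), (24, 19), (24, 20),
   (24, 21), (25, 0), (25, 6), (25, 10), (25, 11), (25, 12), (25, 13), (25, 14), (25, 15),
   (25, 16), (25, 17), (25, 18), (25, 19), (25, 20), (25, 21), (25, 22), (25, 23), (25, 24),
   (25, 25), (26, 9), (26, 11), (26, 12), (26, 13), (26, 14), (26, 15), (26, 16), (26, 17),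
   (26, 18), (26, 19), (26, 20), (26, 21), (26, 22), (26, 23), (26, 24), (26, 25), (26, 26),
   (26, 27), (26, 28), (27, 10), (27, 12), (27, 13), (27, 14), (27, 15), (27, 17), (27, 18),
   (27, 19), (27, 20), (27, 21), (27, 22), (27, 23), (27, 24), (27, 25), (27, 26), (27, 27),
   (27, 28), (27, 30), (27, 31), (28, 15), (28, 16), (28, 18), (28, 19), (28, 20), (28, 21),
   (28, 22), (28, 23), (28, 24), (28, 25), (28, 26), (28, 27), (28, 28), (28, 29), (28, 30),
   (28, 31), (28, 32), (28, 33), (28, 34), (29, 20), (29, 21), (29, 22), (29, 23), (29, 24),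
   (29, 25), (29, 26), (29, 27), (29, 28), (29, 29), (29, 30), (29, 31), (29, 32), (29, 33),
   (29, 34), (29, 35), (29, 36), (30, 24), (30, 25), (30, 26), (30, 27), (30, 28), (30, 29),
   (30, 30), (30, 31), (30, 32), (30, 33), (30, 34), (30, 35), (30, 36), (30, 37), (30, 38),
   (30, 39), (30, 40), (31, 28), (31, 29), (31, 30), (31, 31), (31, 32), (31, 33), (31, 34),
   (31, 35), (31, 36), (31, 37), (31, 38), (31, 39), (31, 40), (31, 41), (31, 44), (32, 32),
   (32, 33), (32, 34), (32, 35), (32, 36), (32, 37), (32, 38), (32, 39), (32, 40), (32, 41),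
   (32, 42), (32, 43), (32, 44), (32, 45), (32, 46), (32, 48), (33, 38), (33, 39), (33, 40),
   (33, 41), (33, 42), (33, 43), (33, 44), (33, 45), (33, 46), (33, 47), (33, 48), (33, 50),
   (33, 51), (34, 42), (34, 43), (34, 44), (34, 45), (34, 46), (34, 47), (34, 48), (34, 49),
   (34, 50), (34, 51), (34, 52), (34, 53), (34, 54), (35, 49), (35, 50), (35, 51), (35, 52),
   (35, 53), (35, 54), (35, 55), (35, 57), (35, 58), (36, 55), (36, 56), (36, 57), (36, 58),
   (37, 62), (37, 63), (37, 64)]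

/-- `k = 12`, `L = 14` -/
def T12 : List (ℕ × ℕ) :=
  [(0, 0), (9, 0), (10, 0), (11, 0), (14, 0), (15, 0), (15, 2), (16, 0), (17, 0), (17, 6),
   (18, 0), (18, 4), (18, 7), (19, 0), (19, 8), (20, 0), (20, 5), (20, 6), (20, 9), (21, 0),
   (21, 4), (21, 6), (21, 8), (22, 0), (22, 6), (22, 9), (22, 10), (22, 12), (23, 8), (23, 9),
   (23, 10), (23, 12), (24, 0), (24, 5), (24, 7), (24, 8), (24, 9), (24, 10), (24, 11), (24, 12),
   (24, 16), (25, 0), (25, 9), (25, 10), (25, 11), (25, 12), (25, 13), (25, 14), (25, 15),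
   (25, 18), (26, 0), (26, 8), (26, 9), (26, 10), (26, 11), (26, 12), (26, 13), (26, 14),
   (26, 15), (26, 18), (26, 20), (27, 0), (27, 6), (27, 8), (27, 10), (27, 11), (27, 12),
   (27, 13), (27, 14), (27, 15), (27, 16), (27, 18), (27, 20), (27, 22), (28, 0), (28, 9),
   (28, 10), (28, 11), (28, 12), (28, 14), (28, 15), (28, 16), (28, 17), (28, 18), (28, 20),
   (28, 21), (28, 24), (29, 0), (29, 10), (29, 12), (29, 13), (29, 14), (29, 15), (29, 16),
   (29, 18), (29, 19), (29, 20), (29, 21), (29, 22), (29, 23), (29, 24), (30, 0), (30, 7),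
   (30, 11), (30, 12), (30, 13), (30, 14), (30, 15), (30, 16), (30, 17), (30, 18), (30, 19),
   (30, 20), (30, 21), (30, 22), (30, 24), (30, 25), (30, 27), (30, 28), (31, 0), (31, 7),
   (31, 12), (31, 13), (31, 14), (31, 15), (31, 16), (31, 17), (31, 18), (31, 19), (31, 20),
   (31, 21), (31, 22), (31, 24), (31, 25), (31, 26), (31, 27), (31, 28), (31, 30), (32, 0),
   (32, 11), (32, 14), (32, 15), (32, 16), (32, 17), (32, 18), (32, 19), (32, 20), (32, 21),
   (32, 22), (32, 23), (32, 24), (32, 25), (32, 26), (32, 27), (32, 28), (32, 29), (32, 30),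
   (32, 31), (32, 34), (33, 0), (33, 8), (33, 12), (33, 13), (33, 14), (33, 15), (33, 16),
   (33, 17), (33, 18), (33, 19), (33, 20), (33, 21), (33, 22), (33, 23), (33, 24), (33, 25),
   (33, 26), (33, 27), (33, 28), (33, 30), (33, 31), (33, 32), (33, 33), (33, 34), (33, 36),
   (33, 37), (34, 0), (34, 12), (34, 14), (34, 15), (34, 16), (34, 17), (34, 18), (34, 19),
   (34, 20), (34, 21), (34, 22), (34, 23), (34, 24), (34, 25), (34, 26), (34, 27), (34, 28),
   (34, 29), (34, 30), (34, 31), (34, 32), (34, 33), (34, 34), (34, 35), (34, 36), (34, 37),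
   (34, 38), (34, 40), (35, 0), (35, 18), (35, 20), (35, 21), (35, 22), (35, 23), (35, 24),
   (35, 25), (35, 26), (35, 27), (35, 28), (35, 29), (35, 30), (35, 31), (35, 32), (35, 33),
   (35, 34), (35, 35), (35, 36), (35, 37), (35, 38), (35, 41), (35, 43), (36, 0), (36, 13),
   (36, 15), (36, 16), (36, 17), (36, 18), (36, 19), (36, 20), (36, 21), (36, 22), (36, 23),
   (36, 24), (36, 25), (36, 26), (36, 27), (36, 28), (36, 29), (36, 30), (36, 31), (36, 32),
   (36, 33), (36, 34), (36, 35), (36, 36), (36, 37), (36, 38), (36, 39), (36, 40), (36, 41),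
   (36, 42), (36, 44), (36, 46), (37, 14), (37, 16), (37, 18), (37, 19), (37, 20), (37, 21),
   (37, 22), (37, 23), (37, 24), (37, 25), (37, 26), (37, 27), (37, 28), (37, 29), (37, 30),
   (37, 31), (37, 32), (37, 33), (37, 34), (37, 35), (37, 36), (37, 37), (37, 38), (37, 39),
   (37, 40), (37, 41), (37, 42), (37, 43), (37, 44), (37, 45), (37, 46), (37, 47), (37, 48),
   (38, 17), (38, 19), (38, 20), (38, 21), (38, 24), (38, 26), (38, 27), (38, 28), (38, 29),
   (38, 30), (38, 31), (38, 32), (38, 33), (38, 34), (38, 35), (38, 36), (38, 37), (38, 38),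
   (38, 39), (38, 40), (38, 41), (38, 42), (38, 43), (38, 44), (38, 45), (38, 46), (38, 47),
   (38, 48), (38, 49), (38, 50), (38, 52), (39, 18), (39, 20), (39, 22), (39, 23), (39, 24),
   (39, 25), (39, 27), (39, 28), (39, 29), (39, 30), (39, 31), (39, 32), (39, 33), (39, 34),
   (39, 35), (39, 36), (39, 37), (39, 38), (39, 39), (39, 40), (39, 41), (39, 42), (39, 43),
   (39, 44), (39, 45), (39, 46), (39, 47), (39, 48), (39, 49), (39, 50), (39, 51), (39, 52),
   (39, 53), (39, 54), (39, 55), (39, 56), (40, 24), (40, 25), (40, 27), (40, 28), (40, 29),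
   (40, 31), (40, 32), (40, 33), (40, 34), (40, 35), (40, 36), (40, 37), (40, 38), (40, 39),
   (40, 40), (40, 41), (40, 42), (40, 43), (40, 44), (40, 45), (40, 46), (40, 47), (40, 48),
   (40, 49), (40, 50), (40, 51), (40, 52), (40, 53), (40, 54), (40, 55), (40, 56), (40, 57),
   (40, 58), (40, 60), (41, 30), (41, 32), (41, 33), (41, 34), (41, 35), (41, 36), (41, 37),
   (41, 38), (41, 39), (41, 40), (41, 41), (41, 42), (41, 43), (41, 44), (41, 45), (41, 46),
   (41, 47), (41, 48), (41, 49), (41, 50), (41, 51), (41, 52), (41, 53), (41, 54), (41, 55),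
   (41, 56), (41, 57), (41, 58), (41, 59), (41, 60), (41, 63), (41, 64), (42, 35), (42, 36),
   (42, 37), (42, 38), (42, 39), (42, 40), (42, 41), (42, 42), (42, 43), (42, 44), (42, 45),
   (42, 46), (42, 47), (42, 48), (42, 49), (42, 50), (42, 51), (42, 52), (42, 53), (42, 54),
   (42, 55), (42, 56), (42, 57), (42, 58), (42, 59), (42, 60), (42, 61), (42, 62), (42, 63),
   (42, 64), (42, 65), (42, 66), (42, 67), (42, 68), (43, 40), (43, 41), (43, 42), (43, 43),
   (43, 44), (43, 45), (43, 46), (43, 47), (43, 48), (43, 49), (43, 50), (43, 51), (43, 52),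
   (43, 53), (43, 54), (43, 55), (43, 56), (43, 57), (43, 58), (43, 59), (43, 60), (43, 61),
   (43, 62), (43, 63), (43, 64), (43, 65), (43, 66), (43, 67), (43, 70), (43, 71), (44, 45),
   (44, 46), (44, 47), (44, 48), (44, 49), (44, 50), (44, 51), (44, 52), (44, 53), (44, 54),
   (44, 55), (44, 56), (44, 57), (44, 58), (44, 59), (44, 60), (44, 61), (44, 62), (44, 63),
   (44, 64), (44, 65), (44, 66), (44, 67), (44, 68), (44, 69), (44, 70), (44, 72), (44, 73),
   (44, 74), (44, 76), (45, 51), (45, 52), (45, 53), (45, 54), (45, 55), (45, 56), (45, 57),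
   (45, 58), (45, 59), (45, 60), (45, 61), (45, 62), (45, 63), (45, 64), (45, 65), (45, 66),
   (45, 67), (45, 68), (45, 69), (45, 70), (45, 71), (45, 72), (45, 73), (45, 74), (45, 75),
   (45, 76), (45, 77), (45, 78), (45, 79), (46, 55), (46, 56), (46, 57), (46, 58), (46, 59),
   (46, 60), (46, 61), (46, 62), (46, 63), (46, 64), (46, 65), (46, 66), (46, 67), (46, 68),
   (46, 69), (46, 70), (46, 71), (46, 72), (46, 73), (46, 74), (46, 75), (46, 76), (46, 77),
   (46, 78), (46, 79), (46, 80), (46, 81), (46, 82), (46, 85), (47, 60), (47, 63), (47, 64),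
   (47, 65), (47, 66), (47, 67), (47, 68), (47, 69), (47, 70), (47, 71), (47, 72), (47, 73),
   (47, 74), (47, 75), (47, 76), (47, 77), (47, 78), (47, 79), (47, 80), (47, 81), (47, 82),
   (47, 83), (47, 84), (47, 85), (47, 86), (47, 88), (47, 89), (47, 90), (48, 68), (48, 69),
   (48, 70), (48, 71), (48, 72), (48, 73), (48, 74), (48, 75), (48, 76), (48, 77), (48, 78),
   (48, 79), (48, 80), (48, 81), (48, 82), (48, 83), (48, 84), (48, 85), (48, 86), (48, 87),
   (48, 88), (48, 89), (48, 90), (48, 91), (48, 92), (48, 94), (49, 72), (49, 74), (49, 75),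
   (49, 76), (49, 77), (49, 78), (49, 79), (49, 80), (49, 81), (49, 82), (49, 83), (49, 84),
   (49, 85), (49, 86), (49, 87), (49, 88), (49, 89), (49, 90), (49, 91), (49, 92), (49, 93),
   (49, 94), (49, 95), (49, 96), (49, 97), (49, 98), (49, 100), (50, 80), (50, 81), (50, 82),
   (50, 83), (50, 84), (50, 85), (50, 86), (50, 87), (50, 88), (50, 89), (50, 90), (50, 91),
   (50, 92), (50, 93), (50, 94), (50, 95), (50, 96), (50, 97), (50, 98), (50, 99), (50, 100),
   (50, 102), (50, 103), (51, 88), (51, 89), (51, 90), (51, 91), (51, 92), (51, 93), (51, 94),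
   (51, 95), (51, 96), (51, 97), (51, 98), (51, 99), (51, 100), (51, 101), (51, 102), (51, 103),
   (51, 104), (51, 105), (51, 106), (51, 107), (52, 96), (52, 97), (52, 98), (52, 99), (52, 100),
   (52, 101), (52, 102), (52, 103), (52, 104), (52, 105), (52, 106), (52, 107), (52, 108),
   (52, 109), (52, 110), (52, 111), (53, 103), (53, 104), (53, 105), (53, 106), (53, 107),
   (53, 108), (53, 109), (53, 110), (53, 111), (53, 112), (53, 113), (53, 114), (53, 115),
   (54, 110), (54, 111), (54, 112), (54, 113), (54, 114), (54, 115), (54, 116), (54, 117),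
   (54, 118), (54, 119), (54, 120), (55, 119), (55, 120), (55, 121), (55, 122), (55, 123),
   (56, 128), (56, 129), (56, 130), (56, 132)]

end Pool.Agent.Helper57.M4
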