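import Pool.Agent.Helper57.M4.Codes
import Pool.Agent.Helper57.M4.Blocks
import Pool.Agent.Helper57.M4.Tabs

/-!
# The blocks are realised
-/

namespace Pool.Agent.Helper57.M4

set_option maxRecDepth 100000 in
lemma chk1 : blk1.all (chk 1) = true := by decide +kernel
set_option maxRecDepth 100000 in
lemma chk2 : blk2.all (chk 2) = true := by decide +kernel
set_option maxRecDepth 100000 in
lemma chk3 : blk3.all (chk 3) = true := by decide +kernel
set_option maxRecDepth 100000 in
lemma chk4 : blk4.all (chk 4) = true := by decide +kernel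
set_option maxRecDepth 100000 in
lemma chk5 : blk5.all (chk 5) = true := by decide +kernel
set_option maxRecDepth 100000 in
lemma chk6 : blk6.all (chk 6) = true := by decide +kernel
set_option maxRecDepth 100000 in
lemma chk7 : blk7.all (chk 7) = true := by decide +kernel
set_option maxRecDepth 100000 in
lemma chk8 : blk8.all (chk 8) = true := by decide +kernel
set_option maxRecDepth 100000 in
lemma chk9 : blk9.all (chk 9) = true := by decide +kernel
set_option maxRecDepth 100000 in
lemma chk10 : blk10.all (chk 10) = true := by decide +kernel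
set_option maxRecDepth 100000 in
lemma chk11 : blk11.all (chk 11) = true := by decide +kernel
set_option maxRecDepth 100000 in
lemma chk12 : blk12.all (chk 12) = true := by decide +kernel

/-- `(L, k, a, b)` -/
abbrev E4 := ℕ × ℕ × ℕ × ℕ

/-- the entry is realised -/
def RzE (e : E4) : Prop := RzL e.1 e.2.1 e.2.2.1 e.2.2.2

/-- the product of two entries -/
def mulE (x y : E4) : E4 :=
  (x.1 + y.1, x.2.1 + y.2.1, x.2.2.1 + y.2.2.1 + x.2.1 * y.2.1,
    x.2.2.2 + y.2.2.2 + x.2.1 * y.2.2.1 + x.2.2.1 * y.2.1)

lemma RzE.mul {x y : E4} (hx : RzE x) (hy : RzE y) : RzE (mulE x y) := RzL.mul hx hy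

/-- the `i`-th member of the list -/
def nth (k : ℕ) : List (ℕ × ℕ × ℕ × ℕ) → ℕ → E4
  | [], _ => (1, 0, 0, 0)
  | e :: _, 0 => (e.1, k, e.2.1, e.2.2.1)
  | _ :: l, i + 1 => nth k l i

/-- the list for `k` -/
def nthL : List (List (ℕ × ℕ × ℕ × ℕ)) → ℕ → List (ℕ × ℕ × ℕ × ℕ)
  | [], _ => []
  | l :: _, 0 => l
  | _ :: L, k + 1 => nthL L k

lemma nth_real {k : ℕ} {l : List (ℕ × ℕ × ℕ × ℕ)} (h : ∀ e ∈ l, RzL e.1 k e.2.1 e.2.2.1)
    (i : ℕ) : RzE (nth k l i) := by
  induction l generalizing i with
  | nil => exact RzL.chain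
  | cons e l ih =>
    cases i with
    | zero => exact h e List.mem_cons_self
    | succ i => exact ih (fun e he => h e (List.mem_cons_of_mem _ he)) i

lemma all_real {k : ℕ} {l : List (ℕ × ℕ × ℕ × ℕ)} (h : l.all (chk k) = true) :
    ∀ e ∈ l, RzL e.1 k e.2.1 e.2.2.1 := by
  rw [List.all_eq_true] at h
  intro e he
  exact rzL_of_chk (h e he)

lemma nthL_real (k : ℕ) : ∀ e ∈ nthL blks k, RzL e.1 k e.2.1 e.2.2.1 := by
  match k with
  | 0 => intro e he; simp [blks, nthL, blk0] at he
  | 1 => exact all_real chk1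
  | 2 => exact all_real chk2
  | 3 => exact all_real chk3
  | 4 => exact all_real chk4
  | 5 => exact all_real chk5
  | 6 => exact all_real chk6
  | 7 => exact all_real chk7
  | 8 => exact all_real chk8
  | 9 => exact all_real chk9
  | 10 => exact all_real chk10
  | 11 => exact all_real chk11
  | 12 => exact all_real chk12
  | k + 13 => intro e he; simp [blks, nthL] at he

/-- the block of a digit -/
def getB (d : ℕ) : E4 := nth ((d - 1) / 512) (nthL blks ((d - 1) / 512)) ((d - 1) % 512)

lemma getB_real (d : ℕ) : RzE (getB d) := nth_real (nthL_real _) _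

/-- the product with a given code -/
def prodE : ℕ → ℕ → E4
  | 0, _ => (1, 0, 0, 0)
  | f + 1, x => bif Nat.beq (x / 16384) 0 then getB x
      else mulE (getB (x % 16384)) (prodE f (x / 16384))

lemma prodE_real (f x : ℕ) : RzE (prodE f x) := by
  induction f generalizing x with
  | zero => exact RzL.chain
  | succ f ih =>
    simp only [prodE]
    cases Nat.beq (x / 16384) 0 with
    | true => exact getB_real _
    | false => exact (getB_real _).mul (ih _)

lemma RzL.mono {L L' k a b : ℕ} (h : L ≤ L') (h' : RzL L k a b) : RzL L' k a b :=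
  ⟨by have := h'.1; omega, fun p hp => h'.2 p (by omega)⟩

/-- the test of a table entry -/
def tst (cap k : ℕ) (t : ℕ × ℕ) (e : E4) : Bool :=
  Nat.ble e.1 cap && (Nat.beq e.2.1 k && (Nat.beq e.2.2.1 t.1 && Nat.beq e.2.2.2 t.2))

/-- the test of a table -/
def chkT (cap k : ℕ) : List (ℕ × ℕ) → List ℕ → Bool
  | [], _ => true
  | _ :: _, [] => false
  | t :: T, c :: C => tst cap k t (prodE 20 c) && chkT cap k T C

lemma chkT_real {cap k : ℕ} {T : List (ℕ × ℕ)} {C : List ℕ} (h : chkT cap k T C = true) :
    ∀ t ∈ T, RzL cap k t.1 t.2 := by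
  induction T generalizing C with
  | nil => simp
  | cons t T ih =>
    cases C with
    | nil => simp [chkT] at h
    | cons c C =>
      simp only [chkT, Bool.and_eq_true] at h
      obtain ⟨h1, h2⟩ := h
      intro t' ht'
      rcases List.mem_cons.1 ht' with rfl | ht'
      · simp only [tst, Bool.and_eq_true, Nat.ble_eq, Nat.beq_eq] at h1
        obtain ⟨g1, g2, g3, g4⟩ := h1
        have h3 := prodE_real 20 c
        unfold RzE at h3
        rw [g2, g3, g4] at h3
        exact h3.mono g1
      · exact ih h2 t' ht'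

set_option maxRecDepth 100000 in
lemma T8a_real : ∀ t ∈ T8a, RzL 9 8 t.1 t.2 :=
  chkT_real (C := C8a) (by decide +kernel)

set_option maxRecDepth 100000 in
lemma T8_real : ∀ t ∈ T8, RzL 16 8 t.1 t.2 :=
  chkT_real (C := C8) (by decide +kernel)

set_option maxRecDepth 100000 in
lemma T10_real : ∀ t ∈ T10, RzL 12 10 t.1 t.2 :=
  chkT_real (C := C10) (by decide +kernel)

set_option maxRecDepth 100000 in
lemma T12_real : ∀ t ∈ T12, RzL 14 12 t.1 t.2 :=
  chkT_real (C := C12) (by decide +kernel)

end Pool.Agent.Helper57.M4
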