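import Pool.Agent.Helper57.M4.Search

/-!
# The exhaustive search, part 1
-/

namespace Pool.Agent.Helper57.M4

set_option maxRecDepth 100000 in
lemma chunk0 : allS (search 801 11) (((front 801 5).drop 0).take 36) = true := by
  decide +kernel

set_option maxRecDepth 100000 in
lemma chunk4 : allS (search 801 11) (((front 801 5).drop 87).take 7) = true := by
  decide +kernel

set_option maxRecDepth 100000 in
lemma chunk8 : allS (search 801 11) (((front 801 5).drop 125).take 5) = true := by
  decide +kernel

set_option maxRecDepth 100000 in
lemma chunk12 : allS (search 801 11) (((front 801 5).drop 147).take 4) = true := by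
  decide +kernel

end Pool.Agent.Helper57.M4
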