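import Pool.Agent.Helper57.M4.Search

/-!
# The exhaustive search, part 4
-/

namespace Pool.Agent.Helper57.M4

set_option maxRecDepth 100000 in
lemma chunk3 : allS (search 801 11) (((front 801 5).drop 75).take 12) = true := by
  decide +kernel

set_option maxRecDepth 100000 in
lemma chunk7 : allS (search 801 11) (((front 801 5).drop 117).take 8) = true := by
  decide +kernel

set_option maxRecDepth 100000 in
lemma chunk11 : allS (search 801 11) (((front 801 5).drop 142).take 5) = true := by
  decide +kernel

set_option maxRecDepth 100000 in
lemma chunk15 : allS (search 801 11) (((front 801 5).drop 156).take 2) = true := by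
  decide +kernel

end Pool.Agent.Helper57.M4
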