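import Pool.Agent.Helper57.M4.Defs

namespace Pool.Agent.Helper57.M4

section
variable {P Q : Type} [PartialOrder P] [PartialOrder Q]

instance finiteHom [Finite P] (k : ℕ) : Finite (P →o Fin k) := DFunLike.finite _

/-- maps bounded by `j` -/
lemma card_le (n : ℕ) (j : Fin (n + 1)) :
    Nat.card {f : P →o Fin (n + 1) // ∀ x, f x ≤ j} = om P (j.1 + 1) := by
  unfold om
  apply Nat.card_congr
  refine
    { toFun := fun f => ⟨fun x => ⟨(f.1 x).1, Nat.lt_succ_of_le (f.2 x)⟩, fun x y h => f.1.2 h⟩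
      invFun := fun g => ⟨⟨fun x => ⟨(g x).1, lt_of_lt_of_le (g x).2 j.2⟩, fun x y h => g.2 h⟩,
        fun x => Nat.lt_succ_iff.1 (g x).2⟩
      left_inv := ?_
      right_inv := ?_ }
  · intro f; rfl
  · intro g; rfl

/-- maps bounded below by `j` -/
lemma card_ge (n : ℕ) (j : Fin (n + 1)) :
    Nat.card {f : Q →o Fin (n + 1) // ∀ x, j ≤ f x} = om Q (n + 1 - j.1) := by
  unfold om
  apply Nat.card_congr
  refine
    { toFun := fun f => ⟨fun x => ⟨(f.1 x).1 - j.1, ?_⟩, fun x y h => ?_⟩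
      invFun := fun g => ⟨⟨fun x => ⟨(g x).1 + j.1, ?_⟩, fun x y h => ?_⟩, fun x => ?_⟩
      left_inv := ?_
      right_inv := ?_ }
  · have h1 : j.1 ≤ (f.1 x).1 := f.2 x
    have h2 := (f.1 x).2
    omega
  · have h1 : (f.1 x).1 ≤ (f.1 y).1 := f.1.2 h
    change (f.1 x).1 - j.1 ≤ (f.1 y).1 - j.1
    omega
  · have h2 := (g x).2
    omega
  · have h1 : (g x).1 ≤ (g y).1 := g.2 h
    change (g x).1 + j.1 ≤ (g y).1 + j.1
    omega
  · change j.1 ≤ (g x).1 + j.1
    omega
  · intro f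
    apply Subtype.ext
    ext x
    have h1 : j.1 ≤ (f.1 x).1 := f.2 x
    change (f.1 x).1 - j.1 + j.1 = (f.1 x).1
    omega
  · intro g
    ext x
    change (g x).1 + j.1 - j.1 = (g x).1
    omega

/-- disjoint union -/
lemma om_sum [Finite P] [Finite Q] (k : ℕ) : om (P ⊕ Q) k = om P k * om Q k := by
  unfold om
  rw [← Nat.card_prod]
  apply Nat.card_congr
  refine
    { toFun := fun f => (⟨fun x => f (Sum.inl x), fun x y h => f.2 (Sum.inl_le_inl_iff.2 h)⟩,
        ⟨fun x => f (Sum.inr x), fun x y h => f.2 (Sum.inr_le_inr_iff.2 h)⟩)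
      invFun := fun g => ⟨Sum.elim g.1 g.2, ?_⟩
      left_inv := ?_
      right_inv := ?_ }
  · rintro (x | x) (y | y) h
    · exact g.1.2 (Sum.inl_le_inl_iff.1 h)
    · exact absurd h Sum.not_inl_le_inr
    · exact absurd h Sum.not_inr_le_inl
    · exact g.2.2 (Sum.inr_le_inr_iff.1 h)
  · intro f
    ext (x | x) <;> rfl
  · intro g
    rfl

lemma om_unit (k : ℕ) : om Unit k = k := by
  have h : Nat.card (Unit →o Fin k) = Nat.card (Fin k) := by
    apply Nat.card_congr
    refine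
      { toFun := fun f => f ()
        invFun := fun i => ⟨fun _ => i, fun _ _ _ => le_refl _⟩
        left_inv := ?_
        right_inv := ?_ }
    · intro f; ext; rfl
    · intro i; rfl
  unfold om
  rw [h]
  simp

lemma om_one : om P 1 = 1 := by
  unfold om
  rw [Nat.card_eq_one_iff_unique]
  refine ⟨⟨fun f g => ?_⟩, ⟨⟨fun _ => 0, fun _ _ _ => le_refl _⟩⟩⟩
  ext x
  have h1 := (f x).2
  have h2 := (g x).2
  omega

lemma om_zero [Nonempty P] : om P 0 = 0 := by
  unfold om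
  rw [Nat.card_eq_zero]
  left
  refine ⟨fun f => ?_⟩
  obtain ⟨x⟩ := ‹Nonempty P›
  exact (f x).elim0

end

section lex
variable (P Q : Type) [PartialOrder P] [PartialOrder Q] [Fintype P] [Finite Q] [Nonempty P]

/-- pairs of maps `f ≤ g` -/
def Pairs (n : ℕ) : Type :=
  {fg : (P →o Fin (n + 1)) × (Q →o Fin (n + 1)) // ∀ x y, fg.1 x ≤ fg.2 y}

lemma om_lex_pairs (n : ℕ) : om (P ⊕ₗ Q) (n + 1) = Nat.card (Pairs P Q n) := by
  unfold om
  apply Nat.card_congr
  refine
    { toFun := fun f => ⟨(⟨fun x => f (toLex (Sum.inl x)),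
          fun x y h => f.2 (Sum.Lex.inl_le_inl_iff.2 h)⟩,
        ⟨fun x => f (toLex (Sum.inr x)), fun x y h => f.2 (Sum.Lex.inr_le_inr_iff.2 h)⟩),
        fun x y => f.2 (Sum.Lex.inl_le_inr x y)⟩
      invFun := fun g => ⟨fun z => Sum.elim g.1.1 g.1.2 (ofLex z), ?_⟩
      left_inv := ?_
      right_inv := ?_ }
  · intro z w h
    rcases z with (x | x) <;> rcases w with (y | y)
    · exact g.1.1.2 (Sum.Lex.inl_le_inl_iff.1 h)
    · exact g.2 x y
    · exact absurd h (Sum.Lex.not_inr_le_inl)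
    · exact g.1.2.2 (Sum.Lex.inr_le_inr_iff.1 h)
  · intro f
    ext z
    rcases z with (x | x) <;> rfl
  · intro g
    rfl

/-- the largest value -/
noncomputable def top (n : ℕ) (f : P →o Fin (n + 1)) : Fin (n + 1) := Finset.univ.sup (fun x => f x)

variable {P Q} in
lemma top_le_iff {n : ℕ} (f : P →o Fin (n + 1)) (j : Fin (n + 1)) :
    top P n f ≤ j ↔ ∀ x, f x ≤ j := by
  unfold top
  simp

lemma card_top (n : ℕ) (j : Fin (n + 1)) :
    (Nat.card {f : P →o Fin (n + 1) // top P n f = j} : ℤ) = om P (j.1 + 1) - om P j.1 := by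
  have h1 : Nat.card {f : P →o Fin (n + 1) // top P n f ≤ j} =
      Nat.card {f : P →o Fin (n + 1) // top P n f = j} +
      Nat.card {f : P →o Fin (n + 1) // top P n f < j} := by
    rw [← Nat.card_sum]
    apply Nat.card_congr
    classical
    have e := Equiv.sumCompl (fun f : {f : P →o Fin (n + 1) // top P n f ≤ j} => top P n f.1 = j)
    refine e.symm.trans (Equiv.sumCongr ?_ ?_)
    · exact
        { toFun := fun f => ⟨f.1.1, f.2⟩
          invFun := fun f => ⟨⟨f.1, f.2.le⟩, f.2⟩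
          left_inv := fun f => rfl
          right_inv := fun f => rfl }
    · exact
        { toFun := fun f => ⟨f.1.1, lt_of_le_of_ne f.1.2 f.2⟩
          invFun := fun f => ⟨⟨f.1, f.2.le⟩, f.2.ne⟩
          left_inv := fun f => rfl
          right_inv := fun f => rfl }
  have h2 : Nat.card {f : P →o Fin (n + 1) // top P n f ≤ j} = om P (j.1 + 1) := by
    rw [← card_le n j]
    apply Nat.card_congr
    exact Equiv.subtypeEquivRight (fun f => top_le_iff f j)
  have h3 : Nat.card {f : P →o Fin (n + 1) // top P n f < j} = om P j.1 := by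
    rcases Nat.eq_zero_or_pos j.1 with h0 | h0
    · rw [h0, om_zero, Nat.card_eq_zero]
      left
      refine ⟨fun f => ?_⟩
      have h4 : (top P n f.1).1 < j.1 := f.2
      omega
    · have hj : j.1 - 1 < n + 1 := by omega
      have h5 := card_le (P := P) n ⟨j.1 - 1, hj⟩
      have h6 : j.1 - 1 + 1 = j.1 := by omega
      simp only at h5
      rw [h6] at h5
      rw [← h5]
      apply Nat.card_congr
      apply Equiv.subtypeEquivRight
      intro f
      rw [← top_le_iff]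
      change (top P n f).1 < j.1 ↔ (top P n f).1 ≤ j.1 - 1
      omega
  rw [h2, h3] at h1
  rw [h1]
  push_cast
  ring

lemma om_lex (n : ℕ) : (om (P ⊕ₗ Q) (n + 1) : ℤ) =
    ∑ j : Fin (n + 1), ((om P (j.1 + 1) : ℤ) - om P j.1) * om Q (n + 1 - j.1) := by
  rw [om_lex_pairs]
  have h : Nat.card (Pairs P Q n) = ∑ j : Fin (n + 1),
      Nat.card {f : P →o Fin (n + 1) // top P n f = j} *
      Nat.card {g : Q →o Fin (n + 1) // ∀ y, j ≤ g y} := by
    simp_rw [← Nat.card_prod]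
    rw [← Nat.card_sigma]
    apply Nat.card_congr
    refine
      { toFun := fun fg => ⟨top P n fg.1.1, ⟨fg.1.1, rfl⟩, ⟨fg.1.2, fun y =>
            (top_le_iff _ _).2 (fun x => fg.2 x y)⟩⟩
        invFun := fun t => ⟨(t.2.1.1, t.2.2.1), fun x y => ?_⟩
        left_inv := fun fg => rfl
        right_inv := ?_ }
    · exact ((top_le_iff _ _).1 (le_of_eq t.2.1.2) x).trans (t.2.2.2 y)
    · rintro ⟨j, ⟨f, rfl⟩, ⟨g, hg⟩⟩
      rfl
  rw [h]
  push_cast
  apply Finset.sum_congr rfl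
  intro j _
  rw [card_top, card_ge]

end lex

/-! ### Closure properties of realisable triples -/

lemma Rz.mul {p a b c p' a' b' c' : ℤ} (h : Rz p a b c) (h' : Rz p' a' b' c') :
    Rz (p + p') (a + a') (b + b' + a * a') (c + c' + a * b' + b * a') := by
  obtain ⟨P, i1, i2, hP, h2, h3, h4⟩ := h
  obtain ⟨Q, i3, i4, hQ, g2, g3, g4⟩ := h'
  have e2 := om_lex P Q 1
  have e3 := om_lex P Q 2
  have e4 := om_lex P Q 3
  have o1 : (om P 1 : ℤ) = 1 := by rw [om_one]; rfl
  have o2 : (om Q 1 : ℤ) = 1 := by rw [om_one]; rfl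
  have o3 : (om P 0 : ℤ) = 0 := by rw [om_zero]; rfl
  simp only [Fin.sum_univ_succ, Fin.val_zero, Fin.val_succ, Finset.univ_eq_empty,
    Finset.sum_empty, Nat.reduceAdd, Nat.reduceSub, zero_add, add_zero, o1, o2, o3, sub_zero,
    one_mul, mul_one, Nat.sub_zero] at e2 e3 e4
  refine ⟨P ⊕ₗ Q, inferInstance, inferInstance, ⟨toLex (Sum.inl hP.some)⟩, ?_, ?_, ?_⟩
  · rw [e2]; linarith
  · rw [e3]
    have k2 : (om P 2 : ℤ) = (p + 1) + a := h2
    have k2' : (om Q 2 : ℤ) = (p' + 1) + a' := g2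
    have k3 : 2 * (om P 3 : ℤ) = (p + 1) * (p + 2) + 2 * a * (p + 1) + 2 * b := h3
    rw [k2, k2']
    linear_combination g3 + h3
  · rw [e4]
    have k2 : (om P 2 : ℤ) = (p + 1) + a := h2
    have k2' : (om Q 2 : ℤ) = (p' + 1) + a' := g2
    rw [k2, k2']
    linear_combination g4 + h4 + 3 * (p + a) * g3 + (3 * (p' + a')) * h3

lemma Rz.point : Rz 1 0 0 0 := by
  refine ⟨Unit, inferInstance, inferInstance, ⟨()⟩, ?_, ?_, ?_⟩ <;> rw [om_unit] <;> norm_num

lemma Rz.chain (p : ℕ) : Rz ((p : ℤ) + 1) 0 0 0 := by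
  induction p with
  | zero => simpa using Rz.point
  | succ p ih =>
    have h := ih.mul Rz.point
    push_cast
    simpa using h

/-- add an isolated point -/
lemma Rz.lin (a : ℕ) : Rz ((a : ℤ) + 1) a 0 0 := by
  rcases Nat.eq_zero_or_pos a with rfl | ha
  · simpa using Rz.chain 0
  · obtain ⟨P, i1, i2, hP, h2, h3, h4⟩ := Rz.chain (a - 1)
    have e : ((a - 1 : ℕ) : ℤ) + 1 = a := by omega
    rw [e] at h2 h3 h4
    refine ⟨P ⊕ Unit, inferInstance, inferInstance, ⟨Sum.inr ()⟩, ?_, ?_, ?_⟩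
    · rw [om_sum, om_unit]
      push_cast
      linear_combination 2 * h2
    · rw [om_sum, om_unit]
      push_cast
      linear_combination 3 * h3
    · rw [om_sum, om_unit]
      push_cast
      linear_combination 4 * h4

lemma RzL.of_rz {L k a b : ℕ} (hL : 1 ≤ L) (h : Rz L k a b) : RzL L k a b := by
  refine ⟨hL, ?_⟩
  intro p hp
  rcases Nat.eq_or_lt_of_le hp with rfl | hlt
  · exact h
  · have h1 := h.mul (Rz.chain (p - L - 1))
    have e : (L : ℤ) + (((p - L - 1 : ℕ) : ℤ) + 1) = p := by omega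
    rw [e] at h1
    simpa using h1

lemma RzL.mul {L k a b L' k' a' b' : ℕ} (h : RzL L k a b) (h' : RzL L' k' a' b') :
    RzL (L + L') (k + k') (a + a' + k * k') (b + b' + k * a' + a * k') := by
  obtain ⟨h1, h2⟩ := h
  obtain ⟨h1', h2'⟩ := h'
  refine ⟨by omega, ?_⟩
  intro p hp
  have h3 := (h2 L le_rfl).mul (h2' (p - L) (by omega))
  have e : (L : ℤ) + ((p - L : ℕ) : ℤ) = p := by omega
  rw [e] at h3
  push_cast
  exact h3

lemma RzL.lin (a : ℕ) : RzL (a + 1) a 0 0 := by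
  apply RzL.of_rz (by omega)
  push_cast
  exact Rz.lin a

lemma RzL.chain : RzL 1 0 0 0 := RzL.lin 0

lemma RzL.val {L k a b q n : ℕ} (h : RzL L k a b) (hq : L + 1 ≤ q)
    (hn : 6 * n = q * (q + 1) * (q + 2) + 3 * k * q * (q + 1) + 6 * a * q + 6 * b) :
    IsVal n := by
  obtain ⟨P, i1, i2, hP, h2, h3, h4⟩ := h.2 (q - 1) (by omega)
  refine ⟨P, i1, i2, hP, ?_⟩
  have e : ((q - 1 : ℕ) : ℤ) = q - 1 := by
    have := h.1
    omega
  rw [e] at h4
  zify at hn ⊢
  have h5 : 6 * (om P 4 : ℤ) = 6 * n := by linear_combination h4 - hn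
  omega

end Pool.Agent.Helper57.M4
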