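import Pool.Agent.Helper57.M4.Search
import Pool.Agent.Helper57.M4.Closure

/-!
# Explicit ordered sets given by the masks of their strict down-sets
-/

open Finset

namespace Pool.Agent.Helper57.M4

/-- the old members, not forced -/
def mapOldL (K : List T) (R : List T) (L : List T) : List T :=
  List.rec (motive := fun _ => List T) R (fun t _ ih =>
    ⟨t.m, t.z, Nat.add t.u (cUp t.m K), t.d, t.s⟩ :: ih) L

lemma mapOldL_eq (K R L : List T) : mapOldL K R L = mapOld K R L := by
  induction L with
  | nil => rfl
  | cons t L ih =>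
    change (⟨t.m, t.z, t.u + cUp t.m K, t.d, t.s⟩ : T) :: mapOldL K R L =
      frc (t.u + cUp t.m K) (fun u' => (⟨t.m, t.z, u', t.d, t.s⟩ : T) :: mapOld K R L)
    rw [frc_eq, ih]

/-- the new list, not forced -/
def extZ (D p : ℕ) (st : List T) : List T :=
  (fun K => (fun K' => mapOldL K (mapNew p K' K') st) (addT K K)) (filt D st)

lemma extZ_eq (D p : ℕ) (st : List T) : extZ D p st = extL D p st := by
  unfold extZ extL ext2
  simp only
  rw [mapOldL_eq]

/-- `D` is one of the masks -/
def memT (D : ℕ) (st : List T) : Bool :=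
  List.rec (motive := fun _ => Bool) false
    (fun t _ ih => Bool.rec (motive := fun _ => Bool) ih true (Nat.beq t.m D)) st

lemma memT_iff (D : ℕ) (st : List T) : memT D st = true ↔ ∃ t ∈ st, t.m = D := by
  induction st with
  | nil => simp [memT]
  | cons t st ih =>
    change Bool.rec (motive := fun _ => Bool) (memT D st) true (Nat.beq t.m D) = true ↔ _
    by_cases h : t.m = D
    · have : Nat.beq t.m D = true := by rw [h]; simp
      rw [this]
      simp only [true_iff]
      exact ⟨t, List.mem_cons_self, h⟩
    · have : Nat.beq t.m D = false := by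
        rw [← Bool.not_eq_true]
        intro hc
        exact h (Nat.eq_of_beq_eq_true hc)
      rw [this]
      simp only [List.mem_cons]
      rw [ih]
      constructor
      · rintro ⟨t', h1, h2⟩
        exact ⟨t', Or.inr h1, h2⟩
      · rintro ⟨t', rfl | h1, h2⟩
        · exact absurd h2 h
        · exact ⟨t', h1, h2⟩

/-- the list of the ideals of the ordered set with the given code -/
def run : List ℕ → List T → ℕ → Option (List T)
  | [], st, _ => some st
  | D :: c, st, p => bif memT D st then run c (extZ D p st) (2 * p) else none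

section code
variable (c : List ℕ)

/-- the strict order given by a code -/
def rc (y x : Fin c.length) : Prop := (c.getD x.1 0).testBit y.1 = true

/-- the first elements -/
def Ac (i : ℕ) : Finset (Fin c.length) := univ.filter (fun x => x.1 < i)

lemma mem_Ac {i : ℕ} {x : Fin c.length} : x ∈ Ac c i ↔ x.1 < i := by simp [Ac]

lemma run_aux : ∀ (suf pre : List ℕ) (st st' : List T), c = pre ++ suf →
    Inv (rc c) (Ac c pre.length) Fin.val pre.length st →
    (∀ x ∈ Ac c pre.length, ∀ y, rc c y x → y.1 < x.1 ∧ ∀ w, rc c w y → rc c w x) →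
    run suf st (2 ^ pre.length) = some st' →
    Inv (rc c) univ Fin.val c.length st' ∧
      (∀ x y, rc c y x → y.1 < x.1 ∧ ∀ w, rc c w y → rc c w x) := by
  intro suf
  induction suf with
  | nil =>
    intro pre st st' hc hI hT hrun
    have hlen : pre.length = c.length := by rw [hc]; simp
    have hA : Ac c pre.length = univ := by
      ext x
      rw [mem_Ac, hlen]
      simp
    simp only [run, Option.some.injEq] at hrun
    rw [hA] at hI hT
    rw [hlen] at hI
    rw [← hrun]
    exact ⟨hI, fun x y h => hT x (mem_univ _) y h⟩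
  | cons D suf ih =>
    intro pre st st' hc hI hT hrun
    have hlen : pre.length < c.length := by rw [hc]; simp
    have hD : c.getD pre.length 0 = D := by
      rw [hc]
      simp
    simp only [run] at hrun
    cases hm : memT D st with
    | false => rw [hm] at hrun; simp at hrun
    | true =>
      rw [hm] at hrun
      simp only [cond_true] at hrun
      obtain ⟨t, ht, htm⟩ := (memT_iff D st).1 hm
      obtain ⟨E, hE1, hE2, hE3, _⟩ := hI.sound t ht
      rw [htm] at hE3
      set z : Fin c.length := ⟨pre.length, hlen⟩ with hz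
      have hrz : ∀ y, rc c y z ↔ y ∈ E := by
        intro y
        unfold rc
        rw [hz]
        simp only
        rw [hD, ← hE3, tb_msk]
        constructor
        · rintro ⟨x, hx, hxy⟩
          rwa [← Fin.ext hxy]
        · intro hy
          exact ⟨y, hy, rfl⟩
      have hzA : z ∉ Ac c pre.length := by
        rw [mem_Ac, hz]
        simp
      have hzz : ¬ rc c z z := by
        rw [hrz]
        intro h
        exact hzA (hE1 h)
      have hI' := hI.ext hzA (fun x hx hc' => by
          have h1 := (hT x hx z hc').1
          rw [mem_Ac] at hx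
          rw [hz] at h1
          simp only at h1
          omega) hzz hrz hE1 (e' := Fin.val) (fun _ _ => rfl) rfl
      have hins : insert z (Ac c pre.length) = Ac c (pre ++ [D]).length := by
        ext x
        rw [mem_insert, mem_Ac, mem_Ac, List.length_append, hz, Fin.ext_iff]
        simp only [List.length_cons, List.length_nil]
        omega
      refine ih (pre ++ [D]) (extZ D (2 ^ pre.length) st) st' (by rw [hc]; simp) ?_ ?_ ?_
      · have : (pre ++ [D]).length = pre.length + 1 := by simp
        rw [← hins, extZ_eq, this, ← hE3]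
        exact hI'
      · rw [← hins]
        intro x hx y hyx
        rcases mem_insert.1 hx with rfl | hx
        · have hy := (hrz y).1 hyx
          refine ⟨(mem_Ac c).1 (hE1 hy), ?_⟩
          intro w hw
          rw [hrz]
          exact hE2 y hy w hw
        · exact hT x hx y hyx
      · have : (2 : ℕ) ^ (pre ++ [D]).length = 2 * 2 ^ pre.length := by
          simp [pow_succ, mul_comm]
        rw [this]
        exact hrun

/-- the underlying set of the ordered set with code `c` -/
def CT : Type := Fin c.length

instance : Fintype (CT c) := inferInstanceAs (Fintype (Fin c.length))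

instance : DecidableEq (CT c) := inferInstanceAs (DecidableEq (Fin c.length))

/-- the order given by a code -/
@[reducible] def codePO (h : ∀ x y, rc c y x → y.1 < x.1 ∧ ∀ w, rc c w y → rc c w x) :
    PartialOrder (CT c) where
  le x y := x = y ∨ rc c x y
  lt x y := (x = y ∨ rc c x y) ∧ ¬ (y = x ∨ rc c y x)
  lt_iff_le_not_ge _ _ := Iff.rfl
  le_refl x := Or.inl rfl
  le_trans x y z := by
    rintro (rfl | h1) (rfl | h2)
    · exact Or.inl rfl
    · exact Or.inr h2
    · exact Or.inr h1
    · exact Or.inr ((h z y h2).2 x h1)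
  le_antisymm x y := by
    rintro (rfl | h1) (h2 | h2)
    · rfl
    · rfl
    · exact h2.symm
    · have := (h y x h1).1
      have := (h x y h2).1
      omega

end code

lemma sum_dn2 (J : Finset ℕ) : V J = ∑ x ∈ J, dn2 J x := by
  unfold V dn2
  have h1 : ∀ x ∈ J, dnC J x * upC J x = ∑ y ∈ J, if x &&& y = x then dnC J x else 0 := by
    intro x _
    unfold upC
    rw [← sum_filter, sum_const, smul_eq_mul, mul_comm]
  rw [sum_congr rfl h1, sum_comm]
  apply sum_congr rfl
  intro y _
  rw [sum_filter]
  apply sum_congr rfl
  intro x _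
  rw [Nat.land_comm]

theorem real_of_code {c : List ℕ} {st : List T} (h : run c root.st 1 = some st) (hne : c ≠ []) :
    ∃ (P : Type) (_ : Fintype P) (_ : PartialOrder P), Nonempty P ∧ om P 2 = st.length ∧
      om P 3 = (st.map T.d).sum ∧ om P 4 = (st.map T.s).sum := by
  have hA0 : Ac c ([] : List ℕ).length = ∅ := by
    ext x
    simp [mem_Ac]
  obtain ⟨hI, hT⟩ := run_aux c c [] root.st st (by simp)
    (by rw [hA0]; exact inv_root _) (by rw [hA0]; simp) (by simpa using h)
  letI : PartialOrder (CT c) := codePO c hT
  have hlt : (fun x y : CT c => x < y) = (rc c : CT c → CT c → Prop) := by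
    funext x y
    apply propext
    constructor
    · rintro ⟨h1 | h1, h2⟩
      · exact absurd (Or.inl h1.symm) h2
      · exact h1
    · intro hr
      refine ⟨Or.inr hr, ?_⟩
      have h1 := (hT _ _ hr).1
      rintro (rfl | h2)
      · omega
      · have h3 := (hT _ _ h2).1
        omega
  refine ⟨CT c, inferInstance, codePO c hT, ?_, ?_, ?_, ?_⟩
  · exact ⟨(⟨0, List.length_pos_iff.2 hne⟩ : Fin c.length)⟩
  · rw [om_two, hlt]
    exact hI.length_eq.symm
  · rw [om_three, hlt]
    exact hI.sum_d.symm
  · rw [om_four, hlt]
    have h1 := hI.V_eq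
    rw [sum_dn2, sum_Ms hI.good.nodup] at h1
    refine Eq.trans h1.symm ?_
    apply congrArg
    apply List.map_congr_left
    intro t ht
    exact (hI.good.s t ht).symm

/-! ### Checking blocks -/

/-- decoding of a code -/
def dec : ℕ → ℕ → List ℕ
  | 0, _ => []
  | n + 1, x => x % 1048576 :: dec n (x / 1048576)

/-- sum of the `d` -/
def sumD (st : List T) : ℕ :=
  List.rec (motive := fun _ => ℕ) 0 (fun t _ ih => Nat.add t.d ih) st

/-- sum of the `s` -/
def sumS (st : List T) : ℕ :=
  List.rec (motive := fun _ => ℕ) 0 (fun t _ ih => Nat.add t.s ih) st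

lemma sumD_eq (st : List T) : sumD st = (st.map T.d).sum := by
  induction st with
  | nil => rfl
  | cons t st ih =>
    change t.d + sumD st = _
    rw [ih]; simp

lemma sumS_eq (st : List T) : sumS st = (st.map T.s).sum := by
  induction st with
  | nil => rfl
  | cons t st ih =>
    change t.s + sumS st = _
    rw [ih]; simp

/-- the check of the numbers of a block -/
def chkSt (L k a b : ℕ) : Option (List T) → Bool
  | none => false
  | some st => Nat.beq st.length (L + 1 + k) &&
      (Nat.beq (2 * sumD st) ((L + 1) * (L + 2) + 2 * k * (L + 1) + 2 * a) &&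
      Nat.beq (6 * sumS st) ((L + 1) * (L + 2) * (L + 3) + 3 * k * (L + 1) * (L + 2) +
        6 * a * (L + 1) + 6 * b))

/-- the check of a block -/
def chk (k : ℕ) (e : ℕ × ℕ × ℕ × ℕ) : Bool :=
  Nat.ble 1 e.1 && chkSt e.1 k e.2.1 e.2.2.1 (run (dec e.1 e.2.2.2) root.st 1)

lemma rzL_of_chk {k : ℕ} {e : ℕ × ℕ × ℕ × ℕ} (h : chk k e = true) :
    RzL e.1 k e.2.1 e.2.2.1 := by
  obtain ⟨L, a, b, x⟩ := e
  unfold chk at h
  simp only [Bool.and_eq_true, Nat.ble_eq] at h
  obtain ⟨hL, h⟩ := h
  cases hr : run (dec L x) root.st 1 with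
  | none => rw [hr] at h; simp [chkSt] at h
  | some st =>
    rw [hr] at h
    simp only [chkSt, Bool.and_eq_true, Nat.beq_eq] at h
    obtain ⟨h1, h2, h3⟩ := h
    have hne : dec L x ≠ [] := by
      obtain ⟨m, rfl⟩ : ∃ m, L = m + 1 := ⟨L - 1, by omega⟩
      simp [dec]
    obtain ⟨P, i1, i2, hP, g2, g3, g4⟩ := real_of_code hr hne
    rw [sumD_eq] at h2
    rw [sumS_eq] at h3
    apply RzL.of_rz hL
    refine ⟨P, i1, i2, hP, ?_, ?_, ?_⟩
    · rw [g2, h1]; push_cast; ring
    · rw [g3]
      have h2' : 2 * ((st.map T.d).sum : ℤ) =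
        (L + 1) * (L + 2) + 2 * k * (L + 1) + 2 * a := by exact_mod_cast h2
      linear_combination h2'
    · rw [g4]
      have h3' : 6 * ((st.map T.s).sum : ℤ) = (L + 1) * (L + 2) * (L + 3) +
        3 * k * (L + 1) * (L + 2) + 6 * a * (L + 1) + 6 * b := by exact_mod_cast h3
      linear_combination h3'

end Pool.Agent.Helper57.M4
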