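import Mathlib

/-!
# Cardinalities of sets of monotone maps into the four-element chain: definitions
-/

namespace Pool.Agent.Helper57.M4

/-- the number of order preserving maps from `P` into the `k`-element chain -/
noncomputable def om (P : Type) [PartialOrder P] (k : ℕ) : ℕ := Nat.card (P →o Fin k)

/-- `(w1, w2, w3)` are realised with `p` elements: there is a finite ordered set `P` whose numbers
of order preserving maps into the chains with 2, 3, 4 elements are the coefficients of
`(1 + w1 x + w2 x ^ 2 + w3 x ^ 3) / (1 - x) ^ (p + 1)`. -/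
def Rz (p w1 w2 w3 : ℤ) : Prop :=
  ∃ (P : Type) (_ : Fintype P) (_ : PartialOrder P), Nonempty P ∧
    (om P 2 : ℤ) = (p + 1) + w1 ∧
    2 * (om P 3 : ℤ) = (p + 1) * (p + 2) + 2 * w1 * (p + 1) + 2 * w2 ∧
    6 * (om P 4 : ℤ) = (p + 1) * (p + 2) * (p + 3) + 3 * w1 * (p + 1) * (p + 2) +
      6 * w2 * (p + 1) + 6 * w3

/-- `(k, a, b)` are realised with any number `p ≥ L` of elements -/
def RzL (L k a b : ℕ) : Prop := 1 ≤ L ∧ ∀ p : ℕ, L ≤ p → Rz p k a b

/-- `n` is the number of order preserving maps of a nonempty finite ordered set into the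
four-element chain -/
def IsVal (n : ℕ) : Prop :=
  ∃ (P : Type) (_ : Fintype P) (_ : PartialOrder P), Nonempty P ∧ om P 4 = n

end Pool.Agent.Helper57.M4
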