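import Mathlib

namespace Pool.Agent.Helper57.M4

/-- A list of 356 positive integers, the largest of which is 801. They turn out to be the positive
integers which are not the number of order preserving maps of a finite ordered set into the
four-element chain. -/
def exceptions : List ℕ :=
  [2, 3, 5, 6, 7, 8, 9, 11, 12, 13, 14, 15, 17, 18, 19, 21, 22, 23, 24, 25, 26, 27, 28, 29, 31,
   32, 33, 34, 36, 37, 38, 39, 41, 42, 43, 44, 45, 46, 47, 48, 49, 51, 52, 53, 54, 55, 57, 58, 59,
   60, 61, 62, 63, 66, 67, 68, 69, 71, 72, 73, 74, 75, 76, 78, 79, 81, 82, 83, 86, 87, 88, 89, 90,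
   91, 92, 93, 94, 95, 96, 97, 99, 101, 102, 103, 105, 106, 107, 108, 109, 110, 111, 113, 114,
   115, 116, 117, 118, 121, 122, 123, 124, 126, 127, 128, 129, 130, 132, 133, 134, 135, 136, 137,
   138, 139, 141, 142, 143, 144, 145, 148, 149, 150, 151, 153, 154, 155, 157, 159, 161, 162, 163,
   164, 166, 167, 169, 170, 171, 172, 174, 176, 177, 178, 180, 181, 183, 184, 185, 186, 187, 188,
   189, 191, 193, 194, 195, 197, 198, 199, 201, 202, 204, 205, 207, 208, 209, 211, 212, 213, 214,
   215, 216, 218, 221, 222, 223, 226, 229, 230, 231, 232, 233, 234, 235, 237, 239, 240, 241, 242,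
   243, 247, 248, 249, 250, 251, 254, 257, 258, 261, 262, 263, 265, 266, 268, 269, 270, 271, 274,
   276, 277, 278, 279, 281, 282, 283, 284, 285, 289, 290, 291, 292, 293, 298, 299, 301, 304, 305,
   307, 310, 311, 312, 313, 314, 315, 319, 321, 323, 325, 326, 327, 329, 331, 333, 334, 335, 337,
   339, 342, 343, 346, 347, 351, 353, 355, 356, 357, 361, 362, 366, 367, 369, 370, 371, 374, 375,
   377, 378, 379, 383, 386, 388, 391, 396, 397, 398, 401, 406, 407, 409, 412, 413, 414, 419, 421,
   423, 424, 425, 432, 433, 434, 437, 439, 441, 443, 449, 451, 452, 453, 458, 459, 461, 468, 469,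
   474, 477, 478, 483, 486, 487, 493, 494, 496, 497, 501, 502, 503, 505, 511, 512, 513, 514, 521,
   522, 526, 533, 537, 538, 539, 547, 548, 549, 558, 559, 566, 575, 587, 599, 609, 619, 623, 631,
   657, 661, 662, 686, 693, 699, 704, 713, 714, 735, 777, 788, 789, 791, 799, 801]

end Pool.Agent.Helper57.M4
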