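import Pool.Agent.Helper57.M4.State
import Pool.Agent.Helper57.M4.Defs

/-!
# Ideals of finite ordered sets and bit masks
-/

open Finset

namespace Pool.Agent.Helper57.M4

section
variable {P : Type} (r : P → P → Prop)

/-- down-closed sets (`r y x` means that `y` is below `x`) -/
def DC (E : Finset P) : Prop := ∀ x ∈ E, ∀ y, r y x → y ∈ E

variable (e : P → ℕ)

lemma exists_mask (E : Finset P) : ∃ m : ℕ, ∀ i, m.testBit i = true ↔ ∃ x ∈ E, e x = i := by
  classical
  induction E using Finset.induction_on with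
  | empty => exact ⟨0, by simp⟩
  | insert x E _ ih =>
    obtain ⟨m, hm⟩ := ih
    refine ⟨m ||| 2 ^ e x, ?_⟩
    intro i
    rw [Nat.testBit_or, Bool.or_eq_true, hm, Nat.testBit_two_pow, decide_eq_true_eq]
    constructor
    · rintro (⟨y, hy, rfl⟩ | rfl)
      · exact ⟨y, mem_insert_of_mem hy, rfl⟩
      · exact ⟨x, mem_insert_self _ _, rfl⟩
    · rintro ⟨y, hy, rfl⟩
      rcases mem_insert.1 hy with rfl | hy
      · exact Or.inr rfl
      · exact Or.inl ⟨y, hy, rfl⟩

/-- the mask of a set -/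
noncomputable def msk (E : Finset P) : ℕ := (exists_mask e E).choose

variable {e}

lemma tb_msk (E : Finset P) (i : ℕ) : (msk e E).testBit i = true ↔ ∃ x ∈ E, e x = i :=
  (exists_mask e E).choose_spec i

lemma mk_unique {E : Finset P} {m : ℕ} (h : ∀ i, m.testBit i = true ↔ ∃ x ∈ E, e x = i) :
    m = msk e E := by
  apply Nat.eq_of_testBit_eq
  intro i
  rw [Bool.eq_iff_iff, h, tb_msk]

lemma mk_congr {e' : P → ℕ} {E : Finset P} (h : ∀ x ∈ E, e x = e' x) : msk e E = msk e' E := by
  apply mk_unique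
  intro i
  rw [tb_msk]
  constructor
  · rintro ⟨x, hx, rfl⟩; exact ⟨x, hx, (h x hx).symm⟩
  · rintro ⟨x, hx, rfl⟩; exact ⟨x, hx, h x hx⟩

lemma mk_lt {E : Finset P} {n : ℕ} (h : ∀ x ∈ E, e x < n) : msk e E < 2 ^ n := by
  apply Nat.lt_pow_two_of_testBit
  intro i hi
  by_contra hc
  rw [Bool.not_eq_false, tb_msk] at hc
  obtain ⟨x, hx, rfl⟩ := hc
  have := h x hx
  omega

variable {A : Finset P} (inj : ∀ x ∈ A, ∀ y ∈ A, e x = e y → x = y)
include inj

lemma sub_iff {E F : Finset P} (hE : E ⊆ A) (hF : F ⊆ A) :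
    msk e E &&& msk e F = msk e E ↔ E ⊆ F := by
  constructor
  · intro h x hx
    have h1 : (msk e E &&& msk e F).testBit (e x) = true := by
      rw [h, tb_msk]; exact ⟨x, hx, rfl⟩
    rw [Nat.testBit_and, Bool.and_eq_true, tb_msk, tb_msk] at h1
    obtain ⟨_, y, hy, hyx⟩ := h1
    rwa [inj x (hE hx) y (hF hy) hyx.symm]
  · intro h
    apply Nat.eq_of_testBit_eq
    intro i
    rw [Bool.eq_iff_iff, Nat.testBit_and, Bool.and_eq_true, tb_msk, tb_msk]
    constructor
    · rintro ⟨h1, _⟩; exact h1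
    · rintro ⟨x, hx, rfl⟩
      exact ⟨⟨x, hx, rfl⟩, x, h hx, rfl⟩

lemma mk_inj {E F : Finset P} (hE : E ⊆ A) (hF : F ⊆ A) (h : msk e E = msk e F) : E = F := by
  apply subset_antisymm
  · rw [← sub_iff inj hE hF, h, Nat.and_self]
  · rw [← sub_iff inj hF hE, h, Nat.and_self]

end

section
variable {P : Type} [DecidableEq P] (r : P → P → Prop)

/-- The list `st` describes the down-closed subsets of `A`. -/
structure Inv (A : Finset P) (e : P → ℕ) (n : ℕ) (st : List T) : Prop where
  inj : ∀ x ∈ A, ∀ y ∈ A, e x = e y → x = y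
  lt : ∀ x ∈ A, e x < n
  good : Good st
  sound : ∀ t ∈ st, ∃ E ⊆ A, DC r E ∧ msk e E = t.m ∧ E.card = t.z
  compl : ∀ E ⊆ A, DC r E → ∃ t ∈ st, t.m = msk e E

variable {r} {A : Finset P} {e : P → ℕ} {n : ℕ} {st : List T}

lemma Inv.st_lt (h : Inv r A e n st) : ∀ t ∈ st, t.m < 2 ^ n := by
  intro t ht
  obtain ⟨E, hE, _, hm, _⟩ := h.sound t ht
  rw [← hm]
  exact mk_lt (fun x hx => h.lt x (hE hx))

/-- adding a maximal element -/
lemma Inv.ext (h : Inv r A e n st) {z : P} (hzA : z ∉ A) (hz : ∀ x ∈ A, ¬ r z x)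
    (hzz : ¬ r z z) {Dz : Finset P} (hD : ∀ y, r y z ↔ y ∈ Dz) (hDA : Dz ⊆ A)
    {e' : P → ℕ} (he : ∀ x ∈ A, e' x = e x) (hez : e' z = n) :
    Inv r (insert z A) e' (n + 1) (extL (msk e Dz) (2 ^ n) st) := by
  have hlt := h.st_lt
  have hmk : ∀ E ⊆ A, msk e' E = msk e E := fun E hE => mk_congr (fun x hx => he x (hE hx))
  have hmkz : ∀ E ⊆ A, msk e' (insert z E) = msk e E + 2 ^ n := by
    intro E hE
    symm
    apply mk_unique
    intro i
    rw [tb_add (mk_lt (fun x hx => h.lt x (hE hx))), Bool.or_eq_true, tb_msk, decide_eq_true_eq]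
    constructor
    · rintro (⟨x, hx, rfl⟩ | rfl)
      · exact ⟨x, mem_insert_of_mem hx, he x (hE hx)⟩
      · exact ⟨z, mem_insert_self _ _, hez⟩
    · rintro ⟨x, hx, rfl⟩
      rcases mem_insert.1 hx with rfl | hx
      · exact Or.inr hez
      · exact Or.inl ⟨x, hx, (he x (hE hx)).symm⟩
  have hDC : ∀ E ⊆ A, DC r E → Dz ⊆ E → DC r (insert z E) := by
    intro E hE hE2 hDE x hx y hyx
    rcases mem_insert.1 hx with rfl | hx
    · exact mem_insert_of_mem (hDE ((hD y).1 hyx))
    · exact mem_insert_of_mem (hE2 x hx y hyx)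
  refine ⟨?_, ?_, good_ext h.good hlt, ?_, ?_⟩
  · intro x hx y hy hxy
    rcases mem_insert.1 hx with hx1 | hx1 <;> rcases mem_insert.1 hy with hy1 | hy1
    · rw [hx1, hy1]
    · exfalso
      rw [hx1, hez, he y hy1] at hxy
      have := h.lt y hy1
      omega
    · exfalso
      rw [hy1, hez, he x hx1] at hxy
      have := h.lt x hx1
      omega
    · rw [he x hx1, he y hy1] at hxy
      exact h.inj x hx1 y hy1 hxy
  · intro x hx
    rcases mem_insert.1 hx with rfl | hx
    · omega
    · rw [he x hx]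
      have := h.lt x hx
      omega
  · intro t ht
    rw [extL_eq, List.mem_append] at ht
    rcases ht with ht | ht
    · obtain ⟨t0, ht0, rfl⟩ := List.mem_map.1 ht
      obtain ⟨E, hE1, hE2, hE3, hE4⟩ := h.sound t0 ht0
      refine ⟨E, hE1.trans (subset_insert _ _), hE2, ?_, hE4⟩
      rw [hmk E hE1]; exact hE3
    · obtain ⟨t0, ht0, rfl⟩ := List.mem_map.1 ht
      rw [filt_eq, List.mem_filter, decide_eq_true_eq] at ht0
      obtain ⟨ht1, ht2⟩ := ht0
      obtain ⟨E, hE1, hE2, hE3, hE4⟩ := h.sound t0 ht1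
      rw [← hE3, sub_iff h.inj hDA hE1] at ht2
      refine ⟨insert z E, insert_subset_insert _ hE1, hDC E hE1 hE2 ht2, ?_, ?_⟩
      · rw [hmkz E hE1, hE3]
      · rw [card_insert_of_notMem (fun hc => hzA (hE1 hc)), hE4]
  · intro E hE hEDC
    by_cases hzE : z ∈ E
    · have hE' : E.erase z ⊆ A := by
        intro x hx
        rw [mem_erase] at hx
        rcases mem_insert.1 (hE hx.2) with hx1 | hx1
        · exact absurd hx1 hx.1
        · exact hx1
      have hDC' : DC r (E.erase z) := by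
        intro x hx y hyx
        rw [mem_erase] at hx ⊢
        refine ⟨?_, hEDC x hx.2 y hyx⟩
        rintro rfl
        have hxA : x ∈ A := hE' (mem_erase.2 hx)
        exact hz x hxA hyx
      have hDE : Dz ⊆ E.erase z := by
        intro y hy
        rw [mem_erase]
        refine ⟨?_, hEDC z hzE y ((hD y).2 hy)⟩
        rintro rfl
        exact hzA (hDA hy)
      obtain ⟨t, ht, htm⟩ := h.compl _ hE' hDC'
      refine ⟨⟨t.m + 2 ^ n, t.z + 1, t.u, t.d + cDn t.m (filt (msk e Dz) st),
          t.s + sDn t.m (addT (filt (msk e Dz) st) (filt (msk e Dz) st))⟩, ?_, ?_⟩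
      · rw [extL_eq, List.mem_append]
        right
        rw [List.mem_map]
        refine ⟨t, ?_, rfl⟩
        rw [filt_eq, List.mem_filter, decide_eq_true_eq]
        refine ⟨ht, ?_⟩
        rw [htm, sub_iff h.inj hDA hE']
        exact hDE
      · simp only
        rw [htm, ← hmkz _ hE', insert_erase hzE]
    · have hE' : E ⊆ A := by
        intro x hx
        rcases mem_insert.1 (hE hx) with rfl | hx1
        · exact absurd hx hzE
        · exact hx1
      obtain ⟨t, ht, htm⟩ := h.compl _ hE' hEDC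
      refine ⟨⟨t.m, t.z, t.u + cUp t.m (filt (msk e Dz) st), t.d, t.s⟩, ?_, ?_⟩
      · rw [extL_eq, List.mem_append]
        left
        rw [List.mem_map]
        exact ⟨t, ht, rfl⟩
      · simp only
        rw [htm, hmk E hE']

open Classical in
/-- the down-closed subsets of `A` -/
noncomputable def LL (r : P → P → Prop) (A : Finset P) : Finset (Finset P) :=
  A.powerset.filter (DC r)

omit [DecidableEq P] in
lemma mem_LL {E : Finset P} : E ∈ LL r A ↔ E ⊆ A ∧ DC r E := by
  simp [LL]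

/-- the number of multichains with three terms of down-closed subsets of `A` -/
noncomputable def c3 (r : P → P → Prop) (A : Finset P) : ℕ :=
  ∑ F ∈ LL r A, ((LL r A).filter (fun E => E ⊆ F)).card * ((LL r A).filter (fun E => F ⊆ E)).card

lemma Inv.Ms_eq (h : Inv r A e n st) : Ms st = (LL r A).image (msk e) := by
  ext m
  rw [mem_Ms, mem_image]
  constructor
  · rintro ⟨t, ht, rfl⟩
    obtain ⟨E, h1, h2, h3, _⟩ := h.sound t ht
    exact ⟨E, mem_LL.2 ⟨h1, h2⟩, h3⟩
  · rintro ⟨E, hE, rfl⟩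
    obtain ⟨t, ht, htm⟩ := h.compl E (mem_LL.1 hE).1 (mem_LL.1 hE).2
    exact ⟨t, ht, htm⟩

lemma Inv.injOn (h : Inv r A e n st) : Set.InjOn (msk e) (LL r A : Set (Finset P)) := by
  intro E hE F hF hEF
  exact mk_inj h.inj (mem_LL.1 hE).1 (mem_LL.1 hF).1 hEF

lemma Inv.dnC_eq (h : Inv r A e n st) {E : Finset P} (hE : E ∈ LL r A) :
    dnC (Ms st) (msk e E) = ((LL r A).filter (fun F => F ⊆ E)).card := by
  unfold dnC
  rw [h.Ms_eq, filter_image, card_image_of_injOn]
  · congr 1
    apply filter_congr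
    intro F hF
    rw [Nat.land_comm, sub_iff h.inj (mem_LL.1 hF).1 (mem_LL.1 hE).1]
  · apply h.injOn.mono
    intro F hF
    rw [mem_coe, mem_filter] at hF
    exact hF.1

lemma Inv.upC_eq (h : Inv r A e n st) {E : Finset P} (hE : E ∈ LL r A) :
    upC (Ms st) (msk e E) = ((LL r A).filter (fun F => E ⊆ F)).card := by
  unfold upC
  rw [h.Ms_eq, filter_image, card_image_of_injOn]
  · congr 1
    apply filter_congr
    intro F hF
    rw [sub_iff h.inj (mem_LL.1 hE).1 (mem_LL.1 hF).1]
  · apply h.injOn.mono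
    intro F hF
    rw [mem_coe, mem_filter] at hF
    exact hF.1

lemma Inv.V_eq (h : Inv r A e n st) : V (Ms st) = c3 r A := by
  unfold V c3
  conv_lhs => rw [h.Ms_eq]
  rw [sum_image h.injOn]
  apply sum_congr rfl
  intro E hE
  rw [← h.Ms_eq, h.dnC_eq hE, h.upC_eq hE]

lemma Inv.length_eq (h : Inv r A e n st) : st.length = (LL r A).card := by
  rw [← card_image_of_injOn h.injOn, ← h.Ms_eq, Ms, List.toFinset_card_of_nodup h.good.nodup,
    List.length_map]

lemma Inv.sum_d (h : Inv r A e n st) : (st.map T.d).sum =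
    ∑ F ∈ LL r A, ((LL r A).filter (fun E => E ⊆ F)).card := by
  have h1 : (st.map T.d).sum = (st.map (fun t => dnC (Ms st) t.m)).sum := by
    apply congrArg
    apply List.map_congr_left
    intro t ht
    exact h.good.d t ht
  rw [h1, ← sum_Ms h.good.nodup]
  conv_lhs => rw [h.Ms_eq]
  rw [sum_image h.injOn]
  apply sum_congr rfl
  intro E hE
  rw [← h.Ms_eq, h.dnC_eq hE]

omit [DecidableEq P] in
lemma LL_mono {A B : Finset P} (hAB : A ⊆ B) : LL r A ⊆ LL r B := by
  intro E hE
  rw [mem_LL] at hE ⊢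
  exact ⟨hE.1.trans hAB, hE.2⟩

lemma c3_mono {A B : Finset P} (hAB : A ⊆ B) : c3 r A ≤ c3 r B := by
  unfold c3
  refine (sum_le_sum ?_).trans (sum_le_sum_of_subset (LL_mono hAB))
  intro F _
  apply Nat.mul_le_mul
  · exact card_le_card (filter_subset_filter _ (LL_mono hAB))
  · exact card_le_card (filter_subset_filter _ (LL_mono hAB))

end

/-! ### Order preserving maps and ideals -/

section om
variable {P : Type} [Fintype P] [DecidableEq P] [PartialOrder P]

lemma dc_le {E : Finset P} (h : DC (fun x y : P => x < y) E) {x y : P} (hxy : x ≤ y)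
    (hy : y ∈ E) : x ∈ E := by
  rcases hxy.eq_or_lt with rfl | hlt
  · exact hy
  · exact h y hy x hlt

/-- the points with value below `j` -/
def lev {k : ℕ} (f : P →o Fin k) (j : ℕ) : Finset P := univ.filter (fun x => (f x).1 < j)

omit [DecidableEq P] in
lemma mem_lev {k : ℕ} (f : P →o Fin k) (j : ℕ) (x : P) : x ∈ lev f j ↔ (f x).1 < j := by
  simp [lev]

omit [DecidableEq P] in
lemma lev_mem {k : ℕ} (f : P →o Fin k) (j : ℕ) :
    lev f j ∈ LL (fun x y : P => x < y) univ := by
  rw [mem_LL]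
  refine ⟨subset_univ _, ?_⟩
  intro x hx y hyx
  rw [mem_lev] at hx ⊢
  have : (f y).1 ≤ (f x).1 := f.2 (le_of_lt hyx)
  omega

omit [DecidableEq P] in
lemma lev_mono {k : ℕ} (f : P →o Fin k) {i j : ℕ} (h : i ≤ j) : lev f i ⊆ lev f j := by
  intro x hx
  rw [mem_lev] at hx ⊢
  omega

lemma om_two : om P 2 = (LL (fun x y : P => x < y) univ).card := by
  unfold om
  have h : Nat.card {E // E ∈ LL (fun x y : P => x < y) univ} =
      (LL (fun x y : P => x < y) univ).card := by simp
  rw [← h]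
  apply Nat.card_congr
  refine
    { toFun := fun f => ⟨lev f 1, lev_mem f 1⟩
      invFun := fun E => ⟨fun x => if x ∈ E.1 then 0 else 1, ?_⟩
      left_inv := ?_
      right_inv := ?_ }
  · intro x y hxy
    have hE := (mem_LL.1 E.2).2
    change (if x ∈ E.1 then (0 : Fin 2) else 1) ≤ (if y ∈ E.1 then (0 : Fin 2) else 1)
    by_cases hy : y ∈ E.1
    · have hx := dc_le hE hxy hy
      rw [if_pos hx, if_pos hy]
    · rw [if_neg hy]
      split_ifs
      · exact Fin.zero_le _
      · exact le_refl _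
  · intro f
    ext x
    change (if x ∈ lev f 1 then (0 : Fin 2) else 1).1 = (f x).1
    have h1 := (f x).2
    by_cases hx : x ∈ lev f 1
    · rw [if_pos hx]
      rw [mem_lev] at hx
      change 0 = _
      omega
    · rw [if_neg hx]
      rw [mem_lev] at hx
      change 1 = _
      omega
  · intro E
    apply Subtype.ext
    ext x
    change x ∈ lev _ 1 ↔ _
    rw [mem_lev]
    change (if x ∈ E.1 then (0 : Fin 2) else 1).1 < 1 ↔ _
    by_cases hx : x ∈ E.1
    · rw [if_pos hx]; simp [hx]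
    · rw [if_neg hx]; simp [hx]

/-- the map with values `0, 1, 2` on `E, F ∖ E` and the rest -/
def fun3 (E F : Finset P) (hE : DC (fun x y : P => x < y) E)
    (hF : DC (fun x y : P => x < y) F) : P →o Fin 3 :=
  ⟨fun x => if x ∈ E then 0 else if x ∈ F then 1 else 2, by
    intro x y hxy
    change (if x ∈ E then (0 : Fin 3) else if x ∈ F then 1 else 2) ≤
      (if y ∈ E then (0 : Fin 3) else if y ∈ F then 1 else 2)
    by_cases hy : y ∈ E
    · rw [if_pos (dc_le hE hxy hy), if_pos hy]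
    · by_cases hy2 : y ∈ F
      · rw [if_neg hy, if_pos hy2, if_pos (dc_le hF hxy hy2)]
        split_ifs <;> decide
      · rw [if_neg hy, if_neg hy2]
        split_ifs <;> decide⟩

lemma fun3_apply (E F : Finset P) (hE : DC (fun x y : P => x < y) E)
    (hF : DC (fun x y : P => x < y) F) (x : P) :
    fun3 E F hE hF x = if x ∈ E then 0 else if x ∈ F then 1 else 2 := rfl

lemma om_three : om P 3 = ∑ F ∈ LL (fun x y : P => x < y) univ,
    ((LL (fun x y : P => x < y) univ).filter (fun E => E ⊆ F)).card := by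
  unfold om
  set L := LL (fun x y : P => x < y) univ with hL
  rw [← card_sigma]
  have h : Nat.card {t // t ∈ L.sigma (fun F => L.filter (fun E => E ⊆ F))} =
      (L.sigma (fun F => L.filter (fun E => E ⊆ F))).card := by
    rw [Nat.card_eq_fintype_card, Fintype.card_coe]
  rw [← h]
  apply Nat.card_congr
  have hm : ∀ t ∈ L.sigma (fun F => L.filter (fun E => E ⊆ F)),
      DC (fun x y : P => x < y) t.2 ∧ DC (fun x y : P => x < y) t.1 ∧ t.2 ⊆ t.1 := by
    intro t ht
    rw [mem_sigma, mem_filter] at ht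
    exact ⟨(mem_LL.1 ht.2.1).2, (mem_LL.1 ht.1).2, ht.2.2⟩
  refine
    { toFun := fun f => ⟨⟨lev f 2, lev f 1⟩, ?_⟩
      invFun := fun t => fun3 t.1.2 t.1.1 (hm t.1 t.2).1 (hm t.1 t.2).2.1
      left_inv := ?_
      right_inv := ?_ }
  · rw [mem_sigma, mem_filter]
    exact ⟨lev_mem f 2, lev_mem f 1, lev_mono f (by norm_num)⟩
  · intro f
    ext x
    rw [fun3_apply]
    have h1 := (f x).2
    simp only [mem_lev]
    split_ifs with g1 g2
    · change 0 = _; omega
    · change 1 = _; omega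
    · change 2 = _; omega
  · rintro ⟨⟨F, E⟩, ht⟩
    obtain ⟨h1, h2, h3⟩ := hm _ ht
    simp only at h1 h2 h3
    apply Subtype.ext
    have e1 : lev (fun3 E F h1 h2) 1 = E := by
      ext x
      rw [mem_lev, fun3_apply]
      by_cases hx : x ∈ E
      · simp [hx]
      · by_cases hx2 : x ∈ F <;> simp [hx, hx2]
    have e2 : lev (fun3 E F h1 h2) 2 = F := by
      ext x
      rw [mem_lev, fun3_apply]
      by_cases hx : x ∈ E
      · simp [hx, h3 hx]
      · by_cases hx2 : x ∈ F <;> simp [hx, hx2]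
    change (⟨lev (fun3 E F h1 h2) 2, lev (fun3 E F h1 h2) 1⟩ :
      (_ : Finset P) × Finset P) = ⟨F, E⟩
    rw [e1, e2]

/-- the map with values `0, 1, 2, 3` on `E, F ∖ E, G ∖ F` and the rest -/
def fun4 (E F G : Finset P) (hE : DC (fun x y : P => x < y) E)
    (hF : DC (fun x y : P => x < y) F) (hG : DC (fun x y : P => x < y) G) : P →o Fin 4 :=
  ⟨fun x => if x ∈ E then 0 else if x ∈ F then 1 else if x ∈ G then 2 else 3, by
    intro x y hxy
    change (if x ∈ E then (0 : Fin 4) else if x ∈ F then 1 else if x ∈ G then 2 else 3) ≤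
      (if y ∈ E then (0 : Fin 4) else if y ∈ F then 1 else if y ∈ G then 2 else 3)
    by_cases hy : y ∈ E
    · rw [if_pos (dc_le hE hxy hy), if_pos hy]
    · by_cases hy2 : y ∈ F
      · rw [if_neg hy, if_pos hy2, if_pos (dc_le hF hxy hy2)]
        split_ifs <;> decide
      · by_cases hy3 : y ∈ G
        · rw [if_neg hy, if_neg hy2, if_pos hy3, if_pos (dc_le hG hxy hy3)]
          split_ifs <;> decide
        · rw [if_neg hy, if_neg hy2, if_neg hy3]
          split_ifs <;> decide⟩

lemma fun4_apply (E F G : Finset P) (hE : DC (fun x y : P => x < y) E)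
    (hF : DC (fun x y : P => x < y) F) (hG : DC (fun x y : P => x < y) G) (x : P) :
    fun4 E F G hE hF hG x =
      if x ∈ E then 0 else if x ∈ F then 1 else if x ∈ G then 2 else 3 := rfl

lemma om_four : om P 4 = c3 (fun x y : P => x < y) univ := by
  unfold om c3
  set L := LL (fun x y : P => x < y) univ with hL
  have hs : ∑ F ∈ L, (L.filter (fun E => E ⊆ F)).card * (L.filter (fun E => F ⊆ E)).card =
      (L.sigma (fun F => (L.filter (fun E => E ⊆ F)) ×ˢ (L.filter (fun E => F ⊆ E)))).card := by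
    rw [card_sigma]
    apply sum_congr rfl
    intro F _
    rw [card_product]
  rw [hs]
  have h : Nat.card {t // t ∈ L.sigma (fun F => (L.filter (fun E => E ⊆ F)) ×ˢ
      (L.filter (fun E => F ⊆ E)))} =
      (L.sigma (fun F => (L.filter (fun E => E ⊆ F)) ×ˢ (L.filter (fun E => F ⊆ E)))).card := by
    rw [Nat.card_eq_fintype_card, Fintype.card_coe]
  rw [← h]
  apply Nat.card_congr
  have hm : ∀ t ∈ L.sigma (fun F => (L.filter (fun E => E ⊆ F)) ×ˢ
      (L.filter (fun E => F ⊆ E))),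
      DC (fun x y : P => x < y) t.2.1 ∧ DC (fun x y : P => x < y) t.1 ∧
      DC (fun x y : P => x < y) t.2.2 ∧ t.2.1 ⊆ t.1 ∧ t.1 ⊆ t.2.2 := by
    intro t ht
    rw [mem_sigma, mem_product, mem_filter, mem_filter] at ht
    exact ⟨(mem_LL.1 ht.2.1.1).2, (mem_LL.1 ht.1).2, (mem_LL.1 ht.2.2.1).2, ht.2.1.2, ht.2.2.2⟩
  refine
    { toFun := fun f => ⟨⟨lev f 2, (lev f 1, lev f 3)⟩, ?_⟩
      invFun := fun t => fun4 t.1.2.1 t.1.1 t.1.2.2 (hm t.1 t.2).1 (hm t.1 t.2).2.1
        (hm t.1 t.2).2.2.1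
      left_inv := ?_
      right_inv := ?_ }
  · rw [mem_sigma, mem_product, mem_filter, mem_filter]
    exact ⟨lev_mem f 2, ⟨lev_mem f 1, lev_mono f (by norm_num)⟩,
      ⟨lev_mem f 3, lev_mono f (by norm_num)⟩⟩
  · intro f
    ext x
    rw [fun4_apply]
    have h1 := (f x).2
    simp only [mem_lev]
    split_ifs with g1 g2 g3
    · change 0 = _; omega
    · change 1 = _; omega
    · change 2 = _; omega
    · change 3 = _; omega
  · rintro ⟨⟨F, E, G⟩, ht⟩
    obtain ⟨h1, h2, h3, h4, h5⟩ := hm _ ht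
    simp only at h1 h2 h3 h4 h5
    apply Subtype.ext
    have e1 : lev (fun4 E F G h1 h2 h3) 1 = E := by
      ext x
      rw [mem_lev, fun4_apply]
      by_cases hx : x ∈ E
      · simp [hx]
      · by_cases hx2 : x ∈ F
        · simp [hx, hx2]
        · by_cases hx3 : x ∈ G <;> simp [hx, hx2, hx3]
    have e2 : lev (fun4 E F G h1 h2 h3) 2 = F := by
      ext x
      rw [mem_lev, fun4_apply]
      by_cases hx : x ∈ E
      · simp [hx, h4 hx]
      · by_cases hx2 : x ∈ F
        · simp [hx, hx2]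
        · by_cases hx3 : x ∈ G <;> simp [hx, hx2, hx3]
    have e3 : lev (fun4 E F G h1 h2 h3) 3 = G := by
      ext x
      rw [mem_lev, fun4_apply]
      by_cases hx : x ∈ E
      · simp [hx, h5 (h4 hx)]
      · by_cases hx2 : x ∈ F
        · simp [hx, hx2, h5 hx2]
        · by_cases hx3 : x ∈ G <;> simp [hx, hx2, hx3]
    change (⟨lev (fun4 E F G h1 h2 h3) 2,
      (lev (fun4 E F G h1 h2 h3) 1, lev (fun4 E F G h1 h2 h3) 3)⟩ :
      (_ : Finset P) × Finset P × Finset P) = ⟨F, (E, G)⟩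
    rw [e1, e2, e3]

end om

end Pool.Agent.Helper57.M4
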