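import Pool.Agent.Helper57.M4.BlockCheck

/-!
# The small values
-/

namespace Pool.Agent.Helper57.M4

/-- the value of an entry for `q = p + 1` -/
def nval (q : ℕ) (e : E4) : ℕ :=
  (q * (q + 1) * (q + 2) + 3 * e.2.1 * q * (q + 1) + 6 * e.2.2.1 * q + 6 * e.2.2.2) / 6

lemma six_dvd (q : ℕ) : 6 ∣ q * (q + 1) * (q + 2) := by
  induction q with
  | zero => simp
  | succ q ih =>
    have h2 : 2 ∣ (q + 1) * (q + 2) := (Nat.even_mul_succ_self (q + 1)).two_dvd
    obtain ⟨t, ht⟩ := h2
    obtain ⟨s, hs⟩ := ih
    refine ⟨s + t, ?_⟩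
    have : (q + 1) * (q + 1 + 1) * (q + 1 + 2) =
      q * (q + 1) * (q + 2) + 3 * ((q + 1) * (q + 2)) := by ring
    rw [this, ht, hs]; ring

lemma nval_mul (q : ℕ) (e : E4) : 6 * nval q e =
    q * (q + 1) * (q + 2) + 3 * e.2.1 * q * (q + 1) + 6 * e.2.2.1 * q + 6 * e.2.2.2 := by
  unfold nval
  apply Nat.mul_div_cancel'
  obtain ⟨t, ht⟩ := (Nat.even_mul_succ_self q).two_dvd
  have h1 : 6 ∣ 3 * e.2.1 * q * (q + 1) := by
    refine ⟨e.2.1 * t, ?_⟩
    have : 3 * e.2.1 * q * (q + 1) = 3 * e.2.1 * (q * (q + 1)) := by ring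
    rw [this, ht]; ring
  refine Dvd.dvd.add (Dvd.dvd.add (Dvd.dvd.add (six_dvd q) h1) ?_) ?_
  · exact ⟨e.2.2.1 * q, by ring⟩
  · exact ⟨e.2.2.2, by ring⟩

lemma isVal_nval {e : E4} (h : RzE e) {q : ℕ} (hq : e.1 + 1 ≤ q) : IsVal (nval q e) :=
  RzL.val h hq (nval_mul q e)

/-- add the values of an entry -/
def addBits (e : E4) : ℕ → ℕ → ℕ → ℕ
  | 0, _, acc => acc
  | f + 1, q, acc => (fun n => bif Nat.ble n 16442 then
      frc (acc ||| 2 ^ n) (fun acc' => addBits e f (q + 1) acc') else acc) (nval q e)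

/-- add the values of all entries -/
def addAll : List ℕ → ℕ → ℕ
  | [], acc => acc
  | c :: C, acc => frc ((fun e => addBits e 50 (e.1 + 1) acc) (prodE 20 c)) (fun acc' => addAll C acc')

/-- all bits are values -/
def Bits (acc : ℕ) : Prop := ∀ n, acc.testBit n = true → IsVal n

lemma bits_add {acc n : ℕ} (h : Bits acc) (hn : IsVal n) : Bits (acc ||| 2 ^ n) := by
  intro m hm
  rw [Nat.testBit_or, Bool.or_eq_true, Nat.testBit_two_pow, decide_eq_true_eq] at hm
  rcases hm with hm | rfl
  · exact h m hm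
  · exact hn

lemma bits_addBits {e : E4} (he : RzE e) (f q acc : ℕ) (hq : e.1 + 1 ≤ q) (h : Bits acc) :
    Bits (addBits e f q acc) := by
  induction f generalizing q acc with
  | zero => exact h
  | succ f ih =>
    simp only [addBits, frc_eq]
    cases Nat.ble (nval q e) 16442 with
    | true => exact ih (q + 1) _ (by omega) (bits_add h (isVal_nval he hq))
    | false => exact h

lemma bits_addAll (C : List ℕ) (acc : ℕ) (h : Bits acc) : Bits (addAll C acc) := by
  induction C generalizing acc with
  | nil => exact h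
  | cons c C ih =>
    simp only [addAll, frc_eq]
    exact ih _ (bits_addBits (prodE_real 20 c) _ _ _ le_rfl h)

/-- the numbers of a list as a bit mask -/
def orL : List ℕ → ℕ
  | [] => 0
  | v :: L => 2 ^ v ||| orL L

lemma testBit_orL {L : List ℕ} {n : ℕ} (h : (orL L).testBit n = true) : n ∈ L := by
  induction L with
  | nil => simp [orL] at h
  | cons v L ih =>
    rw [orL, Nat.testBit_or, Bool.or_eq_true, Nat.testBit_two_pow, decide_eq_true_eq] at h
    rcases h with rfl | h
    · exact List.mem_cons_self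
    · exact List.mem_cons_of_mem _ (ih h)

set_option maxRecDepth 100000 in
lemma small_check : Nat.beq (addAll CB 0 ||| orL (0 :: 1 :: 716 :: 757 :: 812 :: exceptions))
    (2 ^ 16443 - 1) = true := by decide +kernel

/-- a value given by a code -/
lemma isVal_of_code {c : List ℕ} {n : ℕ} (hne : c ≠ [])
    (h : (match run c root.st 1 with
      | none => false
      | some st => Nat.beq (sumS st) n) = true) : IsVal n := by
  cases hr : run c root.st 1 with
  | none => rw [hr] at h; simp at h
  | some st =>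
    rw [hr] at h
    simp only [Nat.beq_eq] at h
    obtain ⟨P, i1, i2, hP, _, _, g4⟩ := real_of_code hr hne
    exact ⟨P, i1, i2, hP, by rw [g4, ← sumS_eq, h]⟩

set_option maxRecDepth 100000 in
lemma isVal_716 : IsVal 716 := isVal_of_code (c := [0, 0, 0, 1, 2, 11]) (by simp)
  (by decide +kernel)

set_option maxRecDepth 100000 in
lemma isVal_757 : IsVal 757 := isVal_of_code (c := [0, 0, 0, 1, 2, 7]) (by simp)
  (by decide +kernel)

set_option maxRecDepth 100000 in
lemma isVal_812 : IsVal 812 := isVal_of_code (c := [0, 0, 0, 0, 7, 23, 55]) (by simp)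
  (by decide +kernel)

/-- all small numbers which are not exceptions are values -/
theorem isVal_small {n : ℕ} (h2 : 2 ≤ n) (hn : n ≤ 16442) (he : n ∉ exceptions) : IsVal n := by
  have h := Nat.eq_of_beq_eq_true small_check
  have hb : (addAll CB 0 ||| orL (0 :: 1 :: 716 :: 757 :: 812 :: exceptions)).testBit n =
      true := by
    rw [h, Nat.testBit_two_pow_sub_one]
    simp; omega
  rw [Nat.testBit_or, Bool.or_eq_true] at hb
  rcases hb with hb | hb
  · exact bits_addAll CB 0 (by intro m hm; simp at hm) n hb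
  · have := testBit_orL hb
    simp only [List.mem_cons] at this
    rcases this with rfl | rfl | rfl | rfl | rfl | h3
    · omega
    · omega
    · exact isVal_716
    · exact isVal_757
    · exact isVal_812
    · exact absurd h3 he

end Pool.Agent.Helper57.M4
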