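import Pool.Agent.Helper57.M4.SearchAll
import Pool.Agent.Helper57.M4.Small
import Pool.Agent.Helper23.M4Mid

/-!
# The set of the numbers of monotone maps into the four-element chain
-/

namespace Pool.Agent.Helper57.M4

/-- every number from 16443 on is a value -/
theorem isVal_big {n : ℕ} (hn : 16443 ≤ n) : IsVal n := by
  have hmul : ∀ L k a b L' k' a' b', RzL L k a b → RzL L' k' a' b' →
      RzL (L + L') (k + k') (a + a' + k * k') (b + b' + k * a' + a * k') :=
    fun _ _ _ _ _ _ _ _ h h' => h.mul h'
  have hlin : ∀ a, RzL (a + 1) a 0 0 := RzL.lin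
  have hval : ∀ L k a b q n : ℕ, RzL L k a b → L + 1 ≤ q → 2 ≤ q →
      6 * n = q * (q + 1) * (q + 2) + 3 * k * q * (q + 1) + 6 * a * q + 6 * b → IsVal n :=
    fun _ _ _ _ _ _ h hq _ hn => h.val hq hn
  by_cases h : n ≤ 12166550
  · exact Pool.Agent.Helper23.M4.mid hmul hlin hval T8a_real T8_real T10_real T12_real n hn h
  · refine Pool.Agent.Helper23.M4.large hmul hlin hval ?_ n (by omega)
    intro η hη
    have h1 : (List.range 32).all (fun η => decide ((42, 35 + η) ∈ T12)) = true := by
      decide +kernel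
    rw [List.all_eq_true] at h1
    exact T12_real _ (of_decide_eq_true (h1 η (List.mem_range.2 hη)))

/-- the values of nonempty ordered sets -/
theorem isVal_iff (n : ℕ) : IsVal n ↔ 2 ≤ n ∧ n ∉ exceptions := by
  constructor
  · rintro ⟨P, i1, i2, ⟨x⟩, h⟩
    refine ⟨?_, fun hc => not_value hc h⟩
    rw [← h]
    have h1 : Nat.card (Fin 2) ≤ Nat.card (P →o Fin 4) := by
      apply Nat.card_le_card_of_injective
        (fun i : Fin 2 => (⟨fun _ => i.castLE (by norm_num), fun _ _ _ => le_refl _⟩ : P →o Fin 4))
      intro i j hij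
      have h2 := DFunLike.congr_fun hij x
      exact Fin.castLE_injective (by norm_num) h2
    simpa [om] using h1
  · rintro ⟨h1, h2⟩
    by_cases h : n ≤ 16442
    · exact isVal_small h1 h h2
    · exact isVal_big (by omega)

end Pool.Agent.Helper57.M4
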