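import Pool.Agent.Helper57.M4.Ideals
import Pool.Agent.Helper57.M4.Exceptions

/-!
# Exhaustive search over all finite ordered sets with few order preserving maps
-/

open Finset

namespace Pool.Agent.Helper57.M4

/-- the same set as a bit mask -/
def excM : ℕ :=
  16687944142411574333239551835274936708034490825985920004539455192150560629079433172251326813555129492497267452244910344336447821071983974219996637155357951800083431557339353404882130701784798352675818805770782730035414495586678768507657583596

/-- `v` is an exception -/
def bad (v : ℕ) : Bool := Nat.beq (Nat.land (Nat.shiftRight excM v) 1) 1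

lemma bad_of_mem {v : ℕ} (h : v ∈ exceptions) : bad v = true := by
  have h1 : exceptions.all (fun v => bad v) = true := by decide +kernel
  rw [List.all_eq_true] at h1
  exact h1 v h

/-- a state of the search: the list of ideals, the value, the bit of the next element and the
size of the last ideal used -/
structure St where
  st : List T
  v : ℕ
  p : ℕ
  last : ℕ

/-- the successors of a state with value at most `N` -/
def kidsAux (N : ℕ) (S : St) (L : List T) : List St :=
  List.rec (motive := fun _ => List St) [] (fun t _ ih => Bool.rec (motive := fun _ => List St)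
        ((fun K => (fun K' => frc (Nat.add S.v (inc K')) (fun v' =>
            Bool.rec (motive := fun _ => List St)
              (⟨ext2 K K' S.p S.st, v', Nat.mul 2 S.p, t.z⟩ :: ih) ih (Nat.ble (Nat.succ N) v')))
              (addT K K)) (filt t.m S.st))
        ih (Nat.ble (Nat.succ t.z) S.last)) L

/-- the successors of a state with value at most `N` -/
def kids (N : ℕ) (S : St) : List St := kidsAux N S S.st

/-- all members satisfy `f` -/
def allS (f : St → Bool) (L : List St) : Bool :=
  List.rec (motive := fun _ => Bool) true
    (fun t _ ih => Bool.rec (motive := fun _ => Bool) false ih (f t)) L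

/-- the search -/
def search (N : ℕ) : ℕ → St → Bool :=
  Nat.rec (motive := fun _ => St → Bool) (fun _ => false)
    (fun _ ih S => Bool.rec (motive := fun _ => Bool) (allS ih (kids N S)) false (bad S.v))

/-- the union of the `f x` -/
def flatS (f : St → List St) (L : List St) : List St :=
  List.rec (motive := fun _ => List St) [] (fun t _ ih => f t ++ ih) L

/-- the root of the search -/
def root : St := ⟨[⟨0, 0, 1, 1, 1⟩], 1, 1, 0⟩

/-- the states of a given level -/
def front (N : ℕ) : ℕ → List St :=
  Nat.rec (motive := fun _ => List St) [root] (fun _ ih => flatS (kids N) ih)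

lemma kidsAux_cons (N : ℕ) (S : St) (t : T) (L : List T) :
    kidsAux N S (t :: L) = if S.last ≤ t.z then
      (if S.v + inc (addT (filt t.m S.st) (filt t.m S.st)) ≤ N then
        ⟨extL t.m S.p S.st, S.v + inc (addT (filt t.m S.st) (filt t.m S.st)), 2 * S.p, t.z⟩ ::
          kidsAux N S L
      else kidsAux N S L) else kidsAux N S L := by
  change Bool.rec (motive := fun _ => List St)
        (frc (S.v + inc (addT (filt t.m S.st) (filt t.m S.st))) (fun v' =>
            Bool.rec (motive := fun _ => List St)
              (⟨extL t.m S.p S.st, v', 2 * S.p, t.z⟩ :: kidsAux N S L)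
              (kidsAux N S L) (Nat.ble (N + 1) v')))
        (kidsAux N S L) (Nat.ble (t.z + 1) S.last) = _
  rw [frc_eq]
  by_cases h1 : S.last ≤ t.z
  · have e1 : Nat.ble (t.z + 1) S.last = false := by
      rw [← Bool.not_eq_true, Nat.ble_eq]; omega
    rw [e1, if_pos h1]
    by_cases h2 : S.v + inc (addT (filt t.m S.st) (filt t.m S.st)) ≤ N
    · have e2 : Nat.ble (N + 1) (S.v + inc (addT (filt t.m S.st) (filt t.m S.st))) = false := by
        rw [← Bool.not_eq_true, Nat.ble_eq]; omega
      rw [if_pos h2]
      simp only
      rw [e2]
    · have e2 : Nat.ble (N + 1) (S.v + inc (addT (filt t.m S.st) (filt t.m S.st))) = true := by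
        rw [Nat.ble_eq]; omega
      rw [if_neg h2]
      simp only
      rw [e2]
  · have e1 : Nat.ble (t.z + 1) S.last = true := by
      rw [Nat.ble_eq]; omega
    rw [e1, if_neg h1]

lemma mem_kidsAux {N : ℕ} {S : St} {L : List T} {t : T} (ht : t ∈ L) (h1 : S.last ≤ t.z)
    (h2 : S.v + inc (addT (filt t.m S.st) (filt t.m S.st)) ≤ N) :
    ⟨extL t.m S.p S.st, S.v + inc (addT (filt t.m S.st) (filt t.m S.st)), 2 * S.p, t.z⟩ ∈
      kidsAux N S L := by
  induction L with
  | nil => simp at ht
  | cons t0 L ih =>
    rw [kidsAux_cons]
    rcases List.mem_cons.1 ht with rfl | ht'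
    · rw [if_pos h1, if_pos h2]
      exact List.mem_cons_self
    · have := ih ht'
      split_ifs
      · exact List.mem_cons_of_mem _ this
      · exact this
      · exact this

lemma allS_iff (f : St → Bool) (L : List St) : allS f L = true ↔ ∀ x ∈ L, f x = true := by
  induction L with
  | nil => simp [allS]
  | cons t L ih =>
    change Bool.rec (motive := fun _ => Bool) false (allS f L) (f t) = true ↔ _
    cases h : f t with
    | false => simp [h]
    | true =>
      simp only [List.mem_cons, forall_eq_or_imp, h, true_and]
      exact ih

lemma search_succ (N f : ℕ) (S : St) :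
    search N (f + 1) S = true ↔ bad S.v = false ∧ ∀ c ∈ kids N S, search N f c = true := by
  change Bool.rec (motive := fun _ => Bool) (allS (search N f) (kids N S)) false (bad S.v) =
    true ↔ _
  cases h : bad S.v with
  | false => simp [allS_iff]
  | true => simp

lemma mem_flatS {f : St → List St} {L : List St} {x y : St} (hx : x ∈ L) (hy : y ∈ f x) :
    y ∈ flatS f L := by
  induction L with
  | nil => simp at hx
  | cons t L ih =>
    change y ∈ f t ++ flatS f L
    rw [List.mem_append]
    rcases List.mem_cons.1 hx with rfl | hx
    · exact Or.inl hy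
    · exact Or.inr (ih hx)

lemma search_front {N k f : ℕ} (h1 : ∀ c ∈ front N (k + 1), search N f c = true)
    (h2 : ∀ c ∈ front N k, bad c.v = false) : ∀ c ∈ front N k, search N (f + 1) c = true := by
  intro c hc
  rw [search_succ]
  refine ⟨h2 c hc, ?_⟩
  intro c' hc'
  exact h1 c' (mem_flatS hc hc')

section sound
variable {P : Type} [Fintype P] [DecidableEq P] [PartialOrder P]

open Classical in
/-- the elements below `x` -/
noncomputable def Below (x : P) : Finset P := univ.filter (fun y => y < x)

lemma mem_Below {x y : P} : y ∈ Below x ↔ y < x := by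
  simp [Below]

lemma inv_root {r : P → P → Prop} (e : P → ℕ) : Inv r ∅ e 0 root.st := by
  have hMs : Ms root.st = {0} := by decide
  have hmsk : msk e ∅ = 0 := by
    symm
    apply mk_unique
    simp
  refine ⟨by simp, by simp, ?_, ?_, ?_⟩
  · refine ⟨by decide, ?_, ?_, ?_⟩
    · intro t ht
      have : t = ⟨0, 0, 1, 1, 1⟩ := by simpa [root] using ht
      rw [hMs, this]
      decide
    · intro t ht
      have : t = ⟨0, 0, 1, 1, 1⟩ := by simpa [root] using ht
      rw [hMs, this]
      decide
    · intro t ht
      have : t = ⟨0, 0, 1, 1, 1⟩ := by simpa [root] using ht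
      rw [hMs, this]
      decide
  · intro t ht
    have : t = ⟨0, 0, 1, 1, 1⟩ := by simpa [root] using ht
    rw [this]
    refine ⟨∅, by simp, ?_, hmsk, by simp⟩
    intro x hx
    simp at hx
  · intro E hE _
    have : E = ∅ := by simpa using hE
    rw [this, hmsk]
    exact ⟨_, List.mem_cons_self, rfl⟩

theorem search_sound (N : ℕ) : ∀ (fuel : ℕ) (S : St) (A : Finset P) (e : P → ℕ) (n : ℕ),
    Inv (fun x y : P => x < y) A e n S.st → S.p = 2 ^ n →
    S.v = c3 (fun x y : P => x < y) A → (∀ x ∈ A, ∀ y, y < x → y ∈ A) →
    (∀ x, x ∉ A → S.last ≤ (Below x).card) → search N fuel S = true →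
    c3 (fun x y : P => x < y) univ ≤ N → bad (c3 (fun x y : P => x < y) univ) = false := by
  intro fuel
  induction fuel with
  | zero =>
    intro S A e n _ _ _ _ _ hs
    exact absurd hs (by simp [search])
  | succ fuel ih =>
    intro S A e n hI hp hv hA hlast hs hN
    rw [search_succ] at hs
    obtain ⟨hb, hk⟩ := hs
    by_cases hu : A = univ
    · rw [← hu, ← hv]; exact hb
    · have hne : (univ \ A).Nonempty := by
        rw [sdiff_nonempty]
        intro h
        exact hu (subset_antisymm (subset_univ _) h)
      obtain ⟨z, hz, hmin⟩ := exists_min_image (univ \ A) (fun x => (Below x).card) hne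
      rw [mem_sdiff] at hz
      have hzA := hz.2
      have hDA : Below z ⊆ A := by
        intro y hy
        by_contra hyA
        have h1 := hmin y (mem_sdiff.2 ⟨mem_univ _, hyA⟩)
        rw [mem_Below] at hy
        have h2 : Below y ⊂ Below z := by
          rw [ssubset_iff_of_subset]
          · exact ⟨y, mem_Below.2 hy, fun h => lt_irrefl _ (mem_Below.1 h)⟩
          · intro w hw
            rw [mem_Below] at hw ⊢
            exact hw.trans hy
        have h3 := card_lt_card h2
        omega
      have hDC : DC (fun x y : P => x < y) (Below z) := by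
        intro x hx y hyx
        rw [mem_Below] at hx ⊢
        exact lt_trans hyx hx
      obtain ⟨t, ht, htm⟩ := hI.compl _ hDA hDC
      obtain ⟨E, hE1, _, hE3, hE4⟩ := hI.sound t ht
      have hEB : E = Below z := mk_inj hI.inj hE1 hDA (hE3.trans htm)
      rw [hEB] at hE4
      have hI' := hI.ext hzA (fun x hx hc => hzA (hA x hx z hc)) (lt_irrefl z)
        (Dz := Below z) (fun y => mem_Below.symm) hDA (e' := Function.update e z n)
        (fun x hx => Function.update_of_ne (by rintro rfl; exact hzA hx) _ _)
        (Function.update_self _ _ _)
      rw [← htm] at hI'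
      have hV : S.v + inc (addT (filt t.m S.st) (filt t.m S.st)) =
          c3 (fun x y : P => x < y) (insert z A) := by
        rw [← hI'.V_eq, V_ext hI.good hI.st_lt, hI.V_eq, hv]
      have hle : c3 (fun x y : P => x < y) (insert z A) ≤ N :=
        (c3_mono (subset_univ _)).trans hN
      have hkid := mem_kidsAux (N := N) (S := S) ht (by rw [← hE4]; exact hlast z hzA)
        (by rw [hV]; exact hle)
      refine ih _ (insert z A) (Function.update e z n) (n + 1) ?_ ?_ ?_ ?_ ?_
        (hk _ hkid) hN
      · simp only
        rw [hp]; exact hI'
      · simp only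
        rw [hp, pow_succ]; ring
      · exact hV
      · intro x hx y hyx
        rcases mem_insert.1 hx with rfl | hx
        · exact mem_insert_of_mem (hDA (mem_Below.2 hyx))
        · exact mem_insert_of_mem (hA x hx y hyx)
      · intro x hx
        rw [mem_insert, not_or] at hx
        simp only
        rw [← hE4]
        exact hmin x (mem_sdiff.2 ⟨mem_univ _, hx.2⟩)

theorem not_bad {N fuel : ℕ} (h : search N fuel root = true) (hN : om P 4 ≤ N) :
    bad (om P 4) = false := by
  rw [om_four] at hN ⊢
  refine search_sound N fuel root ∅ (fun _ => 0) 0 (inv_root _) (by simp [root]) ?_ (by simp)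
    (by simp [root]) h hN
  rw [← (inv_root (r := fun x y : P => x < y) (fun _ => 0)).V_eq]
  decide

end sound

end Pool.Agent.Helper57.M4
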