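import Pool.Agent.Helper57.M4.Chunk1
import Pool.Agent.Helper57.M4.Chunk2
import Pool.Agent.Helper57.M4.Chunk3
import Pool.Agent.Helper57.M4.Chunk4

/-!
# The exhaustive search: all parts
-/

namespace Pool.Agent.Helper57.M4

lemma split_drop {L : List St} {c : St} {a b : ℕ} (l : ℕ) (h : a + l = b) (hc : c ∈ L.drop a) :
    c ∈ (L.drop a).take l ∨ c ∈ L.drop b := by
  rw [← List.take_append_drop l (L.drop a), List.mem_append, List.drop_drop, h] at hc
  exact hc

set_option maxRecDepth 100000 in
lemma front_len : (front 801 5).length = 158 := by decide +kernel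

set_option maxRecDepth 100000 in
lemma front_good0 : allS (fun c => !bad c.v) (front 801 0) = true := by decide +kernel

set_option maxRecDepth 100000 in
lemma front_good1 : allS (fun c => !bad c.v) (front 801 1) = true := by decide +kernel

set_option maxRecDepth 100000 in
lemma front_good2 : allS (fun c => !bad c.v) (front 801 2) = true := by decide +kernel

set_option maxRecDepth 100000 in
lemma front_good3 : allS (fun c => !bad c.v) (front 801 3) = true := by decide +kernel

set_option maxRecDepth 100000 in
lemma front_good4 : allS (fun c => !bad c.v) (front 801 4) = true := by decide +kernel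

lemma front_good' {k : ℕ} (h : allS (fun c => !bad c.v) (front 801 k) = true) :
    ∀ c ∈ front 801 k, bad c.v = false := by
  rw [allS_iff] at h
  intro c hc
  simpa using h c hc

lemma front5 : ∀ c ∈ front 801 5, search 801 11 c = true := by
  intro c hc
  have h0 : c ∈ (front 801 5).drop 0 := by simpa using hc
  rcases split_drop 36 (show 0 + 36 = 36 by norm_num) h0 with h | h1
  · exact (allS_iff _ _).1 chunk0 c h
  rcases split_drop 22 (show 36 + 22 = 58 by norm_num) h1 with h | h2
  · exact (allS_iff _ _).1 chunk1 c h
  rcases split_drop 17 (show 58 + 17 = 75 by norm_num) h2 with h | h3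
  · exact (allS_iff _ _).1 chunk2 c h
  rcases split_drop 12 (show 75 + 12 = 87 by norm_num) h3 with h | h4
  · exact (allS_iff _ _).1 chunk3 c h
  rcases split_drop 7 (show 87 + 7 = 94 by norm_num) h4 with h | h5
  · exact (allS_iff _ _).1 chunk4 c h
  rcases split_drop 11 (show 94 + 11 = 105 by norm_num) h5 with h | h6
  · exact (allS_iff _ _).1 chunk5 c h
  rcases split_drop 12 (show 105 + 12 = 117 by norm_num) h6 with h | h7
  · exact (allS_iff _ _).1 chunk6 c h
  rcases split_drop 8 (show 117 + 8 = 125 by norm_num) h7 with h | h8
  · exact (allS_iff _ _).1 chunk7 c h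
  rcases split_drop 5 (show 125 + 5 = 130 by norm_num) h8 with h | h9
  · exact (allS_iff _ _).1 chunk8 c h
  rcases split_drop 7 (show 130 + 7 = 137 by norm_num) h9 with h | h10
  · exact (allS_iff _ _).1 chunk9 c h
  rcases split_drop 5 (show 137 + 5 = 142 by norm_num) h10 with h | h11
  · exact (allS_iff _ _).1 chunk10 c h
  rcases split_drop 5 (show 142 + 5 = 147 by norm_num) h11 with h | h12
  · exact (allS_iff _ _).1 chunk11 c h
  rcases split_drop 4 (show 147 + 4 = 151 by norm_num) h12 with h | h13
  · exact (allS_iff _ _).1 chunk12 c h
  rcases split_drop 3 (show 151 + 3 = 154 by norm_num) h13 with h | h14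
  · exact (allS_iff _ _).1 chunk13 c h
  rcases split_drop 2 (show 154 + 2 = 156 by norm_num) h14 with h | h15
  · exact (allS_iff _ _).1 chunk14 c h
  rcases split_drop 2 (show 156 + 2 = 158 by norm_num) h15 with h | h16
  · exact (allS_iff _ _).1 chunk15 c h
  exfalso
  rw [List.drop_eq_nil_of_le (by rw [front_len])] at h16
  simp at h16

theorem search_all : search 801 16 root = true := by
  have h4 := search_front front5 (front_good' front_good4)
  have h3 := search_front h4 (front_good' front_good3)
  have h2 := search_front h3 (front_good' front_good2)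
  have h1 := search_front h2 (front_good' front_good1)
  have h0 := search_front h1 (front_good' front_good0)
  exact h0 root (by simp [front])

/-- no exception is the number of order preserving maps of a finite ordered set into the
four-element chain -/
theorem not_value {P : Type} [Fintype P] [PartialOrder P] {n : ℕ} (hn : n ∈ exceptions) :
    om P 4 ≠ n := by
  classical
  intro h
  have h1 : exceptions.all (fun n => decide (n ≤ 801)) = true := by decide +kernel
  rw [List.all_eq_true] at h1
  have h2 : n ≤ 801 := of_decide_eq_true (h1 n hn)
  have h3 := not_bad search_all (h ▸ h2)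
  rw [h, bad_of_mem hn] at h3
  exact absurd h3 (by simp)

end Pool.Agent.Helper57.M4
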