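import Mathlib

/-!
# Lists of ideals (as bit masks) with the numbers of ideals above and below
-/

open Finset

namespace Pool.Agent.Helper57.M4

/-! ### Number level -/

/-- the number of members of `J` above `m` -/
def upC (J : Finset ℕ) (m : ℕ) : ℕ := (J.filter (fun x => m &&& x = m)).card

/-- the number of members of `J` below `m` -/
def dnC (J : Finset ℕ) (m : ℕ) : ℕ := (J.filter (fun x => m &&& x = x)).card

/-- the number of chains of length 2 of members of `J` below `m` -/
def dn2 (J : Finset ℕ) (m : ℕ) : ℕ := ∑ x ∈ J.filter (fun x => m &&& x = x), dnC J x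

/-- the number of multichains with three terms in `J` -/
def V (J : Finset ℕ) : ℕ := ∑ x ∈ J, dnC J x * upC J x

/-- the members of `J` above `D` -/
def KK (J : Finset ℕ) (D : ℕ) : Finset ℕ := J.filter (fun x => D &&& x = D)

/-- add a new maximal element with mask `2 ^ n` above `D` -/
def Jn (J : Finset ℕ) (D n : ℕ) : Finset ℕ := J ∪ (KK J D).image (· + 2 ^ n)

lemma tb_add {a n : ℕ} (ha : a < 2 ^ n) (i : ℕ) :
    (a + 2 ^ n).testBit i = (a.testBit i || decide (i = n)) := by
  have h : a + 2 ^ n = 2 ^ n ||| a := by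
    rw [add_comm]
    have := Nat.two_pow_add_eq_or_of_lt ha 1
    simpa using this
  rw [h, Nat.testBit_or, Nat.testBit_two_pow, Bool.or_comm]
  congr 1
  by_cases hi : n = i
  · simp [hi]
  · have : ¬ i = n := fun h => hi h.symm
    simp [hi, this]

lemma tb_lt {a n : ℕ} (ha : a < 2 ^ n) : a.testBit n = false := Nat.testBit_lt_two_pow ha

lemma land_old_new {a b n : ℕ} (ha : a < 2 ^ n) (hb : b < 2 ^ n) :
    a &&& (b + 2 ^ n) = a &&& b := by
  apply Nat.eq_of_testBit_eq
  intro i
  rw [Nat.testBit_and, Nat.testBit_and, tb_add hb]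
  by_cases hi : i = n
  · subst hi
    rw [tb_lt ha]; simp
  · simp [hi]

lemma land_new_old {a b n : ℕ} (ha : a < 2 ^ n) (hb : b < 2 ^ n) :
    (a + 2 ^ n) &&& b = a &&& b := by
  rw [Nat.land_comm, land_old_new hb ha, Nat.land_comm]

lemma land_new_new {a b n : ℕ} (ha : a < 2 ^ n) (hb : b < 2 ^ n) :
    (a + 2 ^ n) &&& (b + 2 ^ n) = (a &&& b) + 2 ^ n := by
  apply Nat.eq_of_testBit_eq
  intro i
  have hab : a &&& b < 2 ^ n := lt_of_le_of_lt Nat.and_le_left ha
  rw [Nat.testBit_and, tb_add ha, tb_add hb, tb_add hab, Nat.testBit_and]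
  by_cases hi : i = n
  · simp [hi]
  · simp [hi]

section
variable {J : Finset ℕ} {n D : ℕ} (hJ : ∀ x ∈ J, x < 2 ^ n)

lemma mem_KK {x : ℕ} : x ∈ KK J D ↔ x ∈ J ∧ D &&& x = D := by
  simp [KK]

include hJ

lemma KK_lt {x : ℕ} (hx : x ∈ KK J D) : x < 2 ^ n := hJ x (mem_KK.1 hx).1

lemma disj_Jn : Disjoint J ((KK J D).image (· + 2 ^ n)) := by
  rw [Finset.disjoint_left]
  intro x hx hx'
  obtain ⟨y, _, rfl⟩ := mem_image.1 hx'
  have := hJ _ hx
  omega

lemma Jn_lt {x : ℕ} (hx : x ∈ Jn J D n) : x < 2 ^ (n + 1) := by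
  rw [Jn, mem_union] at hx
  rw [pow_succ]
  rcases hx with hx | hx
  · have := hJ x hx; omega
  · obtain ⟨y, hy, rfl⟩ := mem_image.1 hx
    have := KK_lt hJ hy
    omega

lemma sum_Jn (f : ℕ → ℕ) : ∑ x ∈ Jn J D n, f x = ∑ x ∈ J, f x + ∑ x ∈ KK J D, f (x + 2 ^ n) := by
  rw [Jn, sum_union (disj_Jn hJ), sum_image]
  intro a _ b _ h
  simpa using h

lemma filter_Jn_sum (p : ℕ → Prop) [DecidablePred p] (f : ℕ → ℕ) :
    ∑ x ∈ (Jn J D n).filter p, f x =
      ∑ x ∈ J.filter p, f x + ∑ x ∈ (KK J D).filter (fun x => p (x + 2 ^ n)), f (x + 2 ^ n) := by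
  rw [sum_filter, sum_Jn hJ, ← sum_filter, ← sum_filter]

lemma filter_Jn_card (p : ℕ → Prop) [DecidablePred p] :
    ((Jn J D n).filter p).card =
      (J.filter p).card + ((KK J D).filter (fun x => p (x + 2 ^ n))).card := by
  rw [card_eq_sum_ones, card_eq_sum_ones, card_eq_sum_ones, filter_Jn_sum hJ]

lemma upC_old {x : ℕ} (hx : x < 2 ^ n) :
    upC (Jn J D n) x = upC J x + ((KK J D).filter (fun y => x &&& y = x)).card := by
  unfold upC
  rw [filter_Jn_card hJ]
  congr 2
  apply filter_congr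
  intro y hy
  rw [land_old_new hx (KK_lt hJ hy)]

lemma upC_new {x : ℕ} (hx : x ∈ KK J D) : upC (Jn J D n) (x + 2 ^ n) = upC J x := by
  have hxl := KK_lt hJ hx
  unfold upC
  rw [filter_Jn_card hJ]
  have h1 : J.filter (fun y => (x + 2 ^ n) &&& y = x + 2 ^ n) = ∅ := by
    apply filter_false_of_mem
    intro y hy h
    rw [land_new_old hxl (hJ y hy)] at h
    have : x &&& y ≤ x := Nat.and_le_left
    have h2 : 0 < 2 ^ n := by positivity
    omega
  rw [h1, card_empty, zero_add]
  congr 1
  ext y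
  rw [mem_filter, mem_filter, mem_KK]
  constructor
  · rintro ⟨⟨h1, h2⟩, h3⟩
    rw [land_new_new hxl (hJ y h1)] at h3
    exact ⟨h1, by omega⟩
  · rintro ⟨h1, h2⟩
    rw [land_new_new hxl (hJ y h1), h2]
    refine ⟨⟨h1, ?_⟩, rfl⟩
    have h3 := (mem_KK.1 hx).2
    calc D &&& y = (D &&& x) &&& y := by rw [h3]
      _ = D &&& (x &&& y) := Nat.land_assoc _ _ _
      _ = D := by rw [h2, h3]

lemma dnC_old {x : ℕ} (hx : x < 2 ^ n) : dnC (Jn J D n) x = dnC J x := by
  unfold dnC
  rw [filter_Jn_card hJ]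
  have h1 : (KK J D).filter (fun y => x &&& (y + 2 ^ n) = y + 2 ^ n) = ∅ := by
    apply filter_false_of_mem
    intro y hy h
    rw [land_old_new hx (KK_lt hJ hy)] at h
    have h1 : x &&& y ≤ y := Nat.and_le_right
    have h2 : 0 < 2 ^ n := by positivity
    omega
  rw [h1, card_empty, add_zero]

/-- the number of members of `K` below `x` -/
def tC (K : Finset ℕ) (x : ℕ) : ℕ := (K.filter (fun y => x &&& y = y)).card

lemma dnC_new {x : ℕ} (hx : x < 2 ^ n) :
    dnC (Jn J D n) (x + 2 ^ n) = dnC J x + tC (KK J D) x := by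
  unfold dnC tC
  rw [filter_Jn_card hJ]
  congr 2
  · apply filter_congr
    intro y hy
    rw [land_new_old hx (hJ y hy)]
  · apply filter_congr
    intro y hy
    rw [land_new_new hx (KK_lt hJ hy)]
    omega

lemma dn2_old {x : ℕ} (hx : x < 2 ^ n) : dn2 (Jn J D n) x = dn2 J x := by
  unfold dn2
  rw [filter_Jn_sum hJ]
  have h1 : (KK J D).filter (fun y => x &&& (y + 2 ^ n) = y + 2 ^ n) = ∅ := by
    apply filter_false_of_mem
    intro y hy h
    rw [land_old_new hx (KK_lt hJ hy)] at h
    have h1 : x &&& y ≤ y := Nat.and_le_right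
    have h2 : 0 < 2 ^ n := by positivity
    omega
  rw [h1, sum_empty, add_zero]
  apply sum_congr rfl
  intro y hy
  exact dnC_old hJ (hJ y (mem_filter.1 hy).1)

lemma dn2_new {x : ℕ} (hx : x < 2 ^ n) :
    dn2 (Jn J D n) (x + 2 ^ n) = dn2 J x +
      ∑ y ∈ (KK J D).filter (fun y => x &&& y = y), (dnC J y + tC (KK J D) y) := by
  unfold dn2
  rw [filter_Jn_sum hJ]
  congr 1
  · apply sum_congr
    · apply filter_congr
      intro y hy
      rw [land_new_old hx (hJ y hy)]
    · intro y hy
      exact dnC_old hJ (hJ y (mem_filter.1 hy).1)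
  · apply sum_congr
    · apply filter_congr
      intro y hy
      rw [land_new_new hx (KK_lt hJ hy)]
      omega
    · intro y hy
      exact dnC_new hJ (KK_lt hJ (mem_filter.1 hy).1)

lemma V_Jn : V (Jn J D n) = V J +
    ∑ x ∈ KK J D, (dn2 J x + (dnC J x + tC (KK J D) x) * upC J x) := by
  unfold V
  rw [sum_Jn hJ]
  have h1 : ∑ x ∈ J, dnC (Jn J D n) x * upC (Jn J D n) x =
      ∑ x ∈ J, dnC J x * upC J x + ∑ x ∈ KK J D, dn2 J x := by
    have h2 : ∀ x ∈ J, dnC (Jn J D n) x * upC (Jn J D n) x = dnC J x * upC J x +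
        ∑ y ∈ KK J D, if x &&& y = x then dnC J x else 0 := by
      intro x hx
      rw [dnC_old hJ (hJ x hx), upC_old hJ (hJ x hx), mul_add]
      congr 1
      rw [← sum_filter, sum_const, smul_eq_mul, mul_comm]
    rw [sum_congr rfl h2, sum_add_distrib]
    congr 1
    rw [sum_comm]
    apply sum_congr rfl
    intro y _
    unfold dn2
    rw [sum_filter]
    apply sum_congr rfl
    intro x _
    rw [Nat.land_comm]
  rw [h1, add_assoc, ← sum_add_distrib]
  congr 1
  apply sum_congr rfl
  intro x hx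
  rw [dnC_new hJ (KK_lt hJ hx), upC_new hJ hx]

end

/-! ### List level -/

/-- a mask with its data: the number of elements of the ideal, the numbers of ideals above and
below, the number of chains of two ideals below -/
structure T where
  m : ℕ
  z : ℕ
  u : ℕ
  d : ℕ
  s : ℕ

/-- force the evaluation of a number -/
def frc {β : Type} (n : ℕ) (f : ℕ → β) : β :=
  Nat.rec (motive := fun _ => β) (f 0) (fun k _ => f (Nat.succ k)) n

@[simp] lemma frc_eq {β : Type} (n : ℕ) (f : ℕ → β) : frc n f = f n := by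
  cases n <;> rfl

/-- the number of members of `K` below `m` -/
def cDn (m : ℕ) (K : List T) : ℕ :=
  List.rec (motive := fun _ => ℕ) 0
    (fun t _ ih => Bool.rec ih (Nat.succ ih) (Nat.beq (Nat.land m t.m) t.m)) K

/-- the number of members of `K` above `m` -/
def cUp (m : ℕ) (K : List T) : ℕ :=
  List.rec (motive := fun _ => ℕ) 0
    (fun t _ ih => Bool.rec ih (Nat.succ ih) (Nat.beq (Nat.land m t.m) m)) K

/-- the sum of `d` over the members of `K` below `m` -/
def sDn (m : ℕ) (K : List T) : ℕ :=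
  List.rec (motive := fun _ => ℕ) 0
    (fun t _ ih => Bool.rec ih (Nat.add t.d ih) (Nat.beq (Nat.land m t.m) t.m)) K

/-- the members above `D` -/
def filt (D : ℕ) (st : List T) : List T :=
  List.rec (motive := fun _ => List T) []
    (fun t _ ih => Bool.rec ih (t :: ih) (Nat.beq (Nat.land D t.m) D)) st

/-- replace `d` by `d + t` -/
def addT (K : List T) (L : List T) : List T :=
  List.rec (motive := fun _ => List T) [] (fun t _ ih =>
    frc (Nat.add t.d (cDn t.m K)) (fun d' => ⟨t.m, t.z, t.u, d', t.s⟩ :: ih)) L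

/-- the increment of the value -/
def inc (K : List T) : ℕ :=
  List.rec (motive := fun _ => ℕ) 0
    (fun t _ ih => Nat.add (Nat.add t.s (Nat.mul t.d t.u)) ih) K

/-- the new members -/
def mapNew (p : ℕ) (K : List T) (L : List T) : List T :=
  List.rec (motive := fun _ => List T) [] (fun t _ ih =>
    frc (Nat.add t.m p) (fun m' => frc (Nat.add t.s (sDn t.m K))
      (fun s' => ⟨m', Nat.succ t.z, t.u, t.d, s'⟩ :: ih))) L

/-- the old members, followed by `R` -/
def mapOld (K : List T) (R : List T) (L : List T) : List T :=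
  List.rec (motive := fun _ => List T) R (fun t _ ih =>
    frc (Nat.add t.u (cUp t.m K)) (fun u' => ⟨t.m, t.z, u', t.d, t.s⟩ :: ih)) L

/-- the new list, `K` being the list of the members above `D` and `K'` that with `d` updated -/
def ext2 (K K' : List T) (p : ℕ) (st : List T) : List T := mapOld K (mapNew p K' K') st

lemma cDn_eq (m : ℕ) (K : List T) : cDn m K = (K.filter (fun t => m &&& t.m = t.m)).length := by
  induction K with
  | nil => rfl
  | cons t K ih =>
    change Bool.rec (motive := fun _ => ℕ) (cDn m K) (Nat.succ (cDn m K)) (Nat.beq (m &&& t.m) t.m) = _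
    rw [ih]
    by_cases h : m &&& t.m = t.m
    · have : Nat.beq (m &&& t.m) t.m = true := by rw [h]; simp
      rw [this, List.filter_cons_of_pos (by simpa using h)]
      rfl
    · have : Nat.beq (m &&& t.m) t.m = false := by
        rw [← Bool.not_eq_true]
        intro hc
        exact h (Nat.eq_of_beq_eq_true hc)
      rw [this, List.filter_cons_of_neg (by simpa using h)]

lemma cUp_eq (m : ℕ) (K : List T) : cUp m K = (K.filter (fun t => m &&& t.m = m)).length := by
  induction K with
  | nil => rfl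
  | cons t K ih =>
    change Bool.rec (motive := fun _ => ℕ) (cUp m K) (Nat.succ (cUp m K)) (Nat.beq (m &&& t.m) m) = _
    rw [ih]
    by_cases h : m &&& t.m = m
    · have : Nat.beq (m &&& t.m) m = true := by rw [h]; simp
      rw [this, List.filter_cons_of_pos (by simpa using h)]
      rfl
    · have : Nat.beq (m &&& t.m) m = false := by
        rw [← Bool.not_eq_true]
        intro hc
        exact h (Nat.eq_of_beq_eq_true hc)
      rw [this, List.filter_cons_of_neg (by simpa using h)]

lemma sDn_eq (m : ℕ) (K : List T) :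
    sDn m K = ((K.filter (fun t => m &&& t.m = t.m)).map T.d).sum := by
  induction K with
  | nil => rfl
  | cons t K ih =>
    change Bool.rec (motive := fun _ => ℕ) (sDn m K) (t.d + sDn m K) (Nat.beq (m &&& t.m) t.m) = _
    rw [ih]
    by_cases h : m &&& t.m = t.m
    · have : Nat.beq (m &&& t.m) t.m = true := by rw [h]; simp
      rw [this, List.filter_cons_of_pos (by simpa using h)]
      simp
    · have : Nat.beq (m &&& t.m) t.m = false := by
        rw [← Bool.not_eq_true]
        intro hc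
        exact h (Nat.eq_of_beq_eq_true hc)
      rw [this, List.filter_cons_of_neg (by simpa using h)]

lemma filt_eq (D : ℕ) (st : List T) : filt D st = st.filter (fun t => D &&& t.m = D) := by
  induction st with
  | nil => rfl
  | cons t K ih =>
    change Bool.rec (motive := fun _ => List T) (filt D K) (t :: filt D K) (Nat.beq (D &&& t.m) D) = _
    rw [ih]
    by_cases h : D &&& t.m = D
    · have : Nat.beq (D &&& t.m) D = true := by rw [h]; simp
      rw [this, List.filter_cons_of_pos (by simpa using h)]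
    · have : Nat.beq (D &&& t.m) D = false := by
        rw [← Bool.not_eq_true]
        intro hc
        exact h (Nat.eq_of_beq_eq_true hc)
      rw [this, List.filter_cons_of_neg (by simpa using h)]

lemma addT_eq (K L : List T) :
    addT K L = L.map (fun t => ⟨t.m, t.z, t.u, t.d + cDn t.m K, t.s⟩) := by
  induction L with
  | nil => rfl
  | cons t L ih =>
    change frc (t.d + cDn t.m K) (fun d' => (⟨t.m, t.z, t.u, d', t.s⟩ : T) :: addT K L) = _
    rw [frc_eq, ih]
    rfl

lemma inc_eq (K : List T) : inc K = (K.map (fun t => t.s + t.d * t.u)).sum := by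
  induction K with
  | nil => rfl
  | cons t K ih =>
    change (t.s + t.d * t.u) + inc K = _
    rw [ih]
    simp

lemma mapNew_eq (p : ℕ) (K L : List T) :
    mapNew p K L = L.map (fun t => ⟨t.m + p, t.z + 1, t.u, t.d, t.s + sDn t.m K⟩) := by
  induction L with
  | nil => rfl
  | cons t L ih =>
    change frc (t.m + p) (fun m' => frc (t.s + sDn t.m K)
      (fun s' => (⟨m', Nat.succ t.z, t.u, t.d, s'⟩ : T) :: mapNew p K L)) = _
    rw [frc_eq, frc_eq, ih]
    rfl

lemma mapOld_eq (K R L : List T) :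
    mapOld K R L = L.map (fun t => ⟨t.m, t.z, t.u + cUp t.m K, t.d, t.s⟩) ++ R := by
  induction L with
  | nil => rfl
  | cons t L ih =>
    change frc (t.u + cUp t.m K) (fun u' => (⟨t.m, t.z, u', t.d, t.s⟩ : T) :: mapOld K R L) = _
    rw [frc_eq, ih]
    rfl

/-- the masks of a list -/
def Ms (st : List T) : Finset ℕ := (st.map T.m).toFinset

/-- the numbers of a list are correct -/
structure Good (st : List T) : Prop where
  nodup : (st.map T.m).Nodup
  u : ∀ t ∈ st, t.u = upC (Ms st) t.m
  d : ∀ t ∈ st, t.d = dnC (Ms st) t.m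
  s : ∀ t ∈ st, t.s = dn2 (Ms st) t.m

lemma mem_Ms {st : List T} {x : ℕ} : x ∈ Ms st ↔ ∃ t ∈ st, t.m = x := by
  simp [Ms]

/-- sums over the list -/
lemma sum_Ms {st : List T} (h : (st.map T.m).Nodup) (f : ℕ → ℕ) :
    ∑ x ∈ Ms st, f x = (st.map (fun t => f t.m)).sum := by
  unfold Ms
  rw [List.sum_toFinset _ h, List.map_map]
  rfl

lemma nodup_filter {st : List T} (h : (st.map T.m).Nodup) (p : T → Bool) :
    ((st.filter p).map T.m).Nodup := (List.filter_sublist.map T.m).nodup h

lemma Ms_filter {st : List T} (p : ℕ → Prop) [DecidablePred p] :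
    Ms (st.filter (fun t => p t.m)) = (Ms st).filter p := by
  ext x
  simp only [mem_Ms, mem_filter, List.mem_filter, decide_eq_true_eq]
  constructor
  · rintro ⟨t, ⟨h1, h2⟩, rfl⟩
    exact ⟨⟨t, h1, rfl⟩, h2⟩
  · rintro ⟨⟨t, h1, rfl⟩, h2⟩
    exact ⟨t, ⟨h1, h2⟩, rfl⟩

lemma card_filter_Ms {st : List T} (h : (st.map T.m).Nodup) (p : ℕ → Prop) [DecidablePred p] :
    ((Ms st).filter p).card = (st.filter (fun t => p t.m)).length := by
  rw [← Ms_filter, Ms, List.toFinset_card_of_nodup (nodup_filter h _), List.length_map]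

lemma sum_filter_Ms {st : List T} (h : (st.map T.m).Nodup) (p : ℕ → Prop) [DecidablePred p]
    (f : ℕ → ℕ) :
    ∑ x ∈ (Ms st).filter p, f x = ((st.filter (fun t => p t.m)).map (fun t => f t.m)).sum := by
  rw [← Ms_filter, sum_Ms (nodup_filter h _)]

section ext
variable {st : List T} (hg : Good st) {n D : ℕ} (hlt : ∀ t ∈ st, t.m < 2 ^ n)
include hg hlt

lemma lt_Ms : ∀ x ∈ Ms st, x < 2 ^ n := by
  intro x hx
  obtain ⟨t, ht, rfl⟩ := mem_Ms.1 hx
  exact hlt t ht

omit hg hlt in
lemma Ms_filt : Ms (filt D st) = KK (Ms st) D := by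
  rw [filt_eq, KK, ← Ms_filter (fun x => D &&& x = D)]

omit hlt in
lemma cUp_filt (x : ℕ) :
    cUp x (filt D st) = ((KK (Ms st) D).filter (fun y => x &&& y = x)).card := by
  rw [cUp_eq, ← Ms_filt, card_filter_Ms (by rw [filt_eq]; exact nodup_filter hg.nodup _)]

omit hlt in
lemma cDn_filt (x : ℕ) : cDn x (filt D st) = tC (KK (Ms st) D) x := by
  rw [cDn_eq, tC, ← Ms_filt,
    card_filter_Ms (by rw [filt_eq]; exact nodup_filter hg.nodup _)]

/-- the new list -/
def extL (D p : ℕ) (st : List T) : List T :=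
  ext2 (filt D st) (addT (filt D st) (filt D st)) p st

omit hg hlt in
lemma extL_eq (D p : ℕ) (st : List T) : extL D p st =
    st.map (fun t => ⟨t.m, t.z, t.u + cUp t.m (filt D st), t.d, t.s⟩) ++
    (filt D st).map (fun t => ⟨t.m + p, t.z + 1, t.u, t.d + cDn t.m (filt D st),
      t.s + sDn t.m (addT (filt D st) (filt D st))⟩) := by
  unfold extL ext2
  rw [mapOld_eq, mapNew_eq, addT_eq (filt D st) (filt D st), List.map_map]
  rfl

omit hg hlt in
lemma extL_masks (D p : ℕ) (st : List T) : (extL D p st).map T.m =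
    st.map T.m ++ ((filt D st).map T.m).map (· + p) := by
  rw [extL_eq, List.map_append, List.map_map, List.map_map, List.map_map]
  rfl

omit hg hlt in
lemma Ms_ext : Ms (extL D (2 ^ n) st) = Jn (Ms st) D n := by
  rw [Jn, ← Ms_filt]
  unfold Ms
  rw [extL_masks, List.toFinset_append]
  congr 1
  ext x
  simp

lemma good_ext : Good (extL D (2 ^ n) st) := by
  have hJ := lt_Ms hg hlt
  have hmemK : ∀ t ∈ filt D st, t ∈ st ∧ t.m ∈ KK (Ms st) D := by
    intro t ht
    rw [filt_eq, List.mem_filter] at ht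
    refine ⟨ht.1, mem_KK.2 ⟨mem_Ms.2 ⟨t, ht.1, rfl⟩, by simpa using ht.2⟩⟩
  refine ⟨?_, ?_, ?_, ?_⟩
  · rw [extL_masks, List.nodup_append]
    refine ⟨hg.nodup, ?_, ?_⟩
    · apply List.Nodup.map
      · intro a b h; simpa using h
      · rw [filt_eq]; exact nodup_filter hg.nodup _
    · intro a ha b hb
      obtain ⟨t, ht, rfl⟩ := List.mem_map.1 ha
      obtain ⟨y, _, rfl⟩ := List.mem_map.1 hb
      have := hlt t ht
      omega
  all_goals
    intro t ht
    rw [Ms_ext]
    rw [extL_eq, List.mem_append] at ht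
    rcases ht with ht | ht
    · obtain ⟨t0, ht0, rfl⟩ := List.mem_map.1 ht
      have h0 := hlt t0 ht0
      simp only
      first
      | rw [upC_old hJ h0, hg.u t0 ht0, cUp_filt hg]
      | rw [dnC_old hJ h0, hg.d t0 ht0]
      | rw [dn2_old hJ h0, hg.s t0 ht0]
    · obtain ⟨t0, ht0, rfl⟩ := List.mem_map.1 ht
      obtain ⟨ht1, ht2⟩ := hmemK t0 ht0
      have h0 := hlt t0 ht1
      simp only
      first
      | rw [upC_new hJ ht2, hg.u t0 ht1]
      | rw [dnC_new hJ h0, hg.d t0 ht1, cDn_filt hg]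
      | rw [dn2_new hJ h0, hg.s t0 ht1]
        congr 1
        rw [sDn_eq, addT_eq, ← Ms_filt, sum_filter_Ms
          (by rw [filt_eq]; exact nodup_filter hg.nodup _)]
        rw [List.filter_map, List.map_map]
        apply congrArg
        apply List.map_congr_left
        intro y hy
        have hy1 : y ∈ st := (hmemK y (List.mem_filter.1 hy).1).1
        simp only [Function.comp]
        rw [hg.d y hy1, cDn_filt hg, Ms_filt]

lemma V_ext : V (Ms (extL D (2 ^ n) st)) =
    V (Ms st) + inc (addT (filt D st) (filt D st)) := by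
  have hJ := lt_Ms hg hlt
  rw [Ms_ext, V_Jn hJ]
  congr 1
  rw [inc_eq, addT_eq, List.map_map]
  have h1 := sum_Ms (st := filt D st) (by rw [filt_eq]; exact nodup_filter hg.nodup _)
    (fun x => dn2 (Ms st) x + (dnC (Ms st) x + tC (KK (Ms st) D) x) * upC (Ms st) x)
  rw [Ms_filt] at h1
  rw [h1]
  apply congrArg
  apply List.map_congr_left
  intro t ht
  rw [filt_eq, List.mem_filter] at ht
  simp only [Function.comp]
  rw [hg.s t ht.1, hg.d t ht.1, hg.u t ht.1, cDn_filt hg]

end ext

end Pool.Agent.Helper57.M4
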